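import Mathlib

/-! Invariants of binary quartics relative to the pair of points `0, ∞`. -/

set_option autoImplicit false

namespace Pool.Agent.TH546.M2

/-- the four elementary symmetric functions -/
def e1 (w : Fin 4 → ℂ) : ℂ := w 0 + w 1 + w 2 + w 3
def e2 (w : Fin 4 → ℂ) : ℂ :=
  w 0 * w 1 + w 0 * w 2 + w 0 * w 3 + w 1 * w 2 + w 1 * w 3 + w 2 * w 3
def e3 (w : Fin 4 → ℂ) : ℂ :=
  w 0 * w 1 * w 2 + w 0 * w 1 * w 3 + w 0 * w 2 * w 3 + w 1 * w 2 * w 3
def e4 (w : Fin 4 → ℂ) : ℂ := w 0 * w 1 * w 2 * w 3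

/-- the invariants `I` and `J` of the quartic -/
def II (w : Fin 4 → ℂ) : ℂ := 12 * e4 w - 3 * e1 w * e3 w + e2 w ^ 2
def JJ (w : Fin 4 → ℂ) : ℂ :=
  72 * e2 w * e4 w + 9 * e1 w * e2 w * e3 w - 27 * e3 w ^ 2 - 27 * e1 w ^ 2 * e4 w
    - 2 * e2 w ^ 3

theorem prod_sub (w : Fin 4 → ℂ) (t : ℂ) :
    ∏ i, (t - w i) = t ^ 4 - e1 w * t ^ 3 + e2 w * t ^ 2 - e3 w * t + e4 w := by
  simp only [Fin.prod_univ_four, e1, e2, e3, e4]
  ring

theorem disc_identity (w : Fin 4 → ℂ) :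
    4 * II w ^ 3 - JJ w ^ 2 = 27 * ((w 0 - w 1) * (w 0 - w 2) * (w 0 - w 3) * (w 1 - w 2) *
      (w 1 - w 3) * (w 2 - w 3)) ^ 2 := by
  simp only [II, JJ, e1, e2, e3, e4]
  ring

theorem disc_ne (w : Fin 4 → ℂ) : JJ w ^ 2 ≠ 4 * II w ^ 3 ↔ Function.Injective w := by
  have h := disc_identity w
  constructor
  · intro hne i j hij
    by_contra hc
    apply hne
    have : (w 0 - w 1) * (w 0 - w 2) * (w 0 - w 3) * (w 1 - w 2) *
      (w 1 - w 3) * (w 2 - w 3) = 0 := by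
      fin_cases i <;> fin_cases j <;> simp_all
    rw [this] at h
    linear_combination -h
  · intro hinj hne
    have h1 : ((w 0 - w 1) * (w 0 - w 2) * (w 0 - w 3) * (w 1 - w 2) *
      (w 1 - w 3) * (w 2 - w 3)) ^ 2 = 0 := by
      have : (27 : ℂ) * ((w 0 - w 1) * (w 0 - w 2) * (w 0 - w 3) * (w 1 - w 2) *
      (w 1 - w 3) * (w 2 - w 3)) ^ 2 = 0 := by rw [← h, hne]; ring
      simpa using this
    have h2 := pow_eq_zero_iff (two_ne_zero) |>.1 h1
    simp only [mul_eq_zero, sub_eq_zero] at h2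
    rcases h2 with ((((h2 | h2) | h2) | h2) | h2) | h2 <;> exact absurd (hinj h2) (by decide)

/-- the elementary symmetric functions are determined by the values of the polynomial -/
theorem sym_eq {w w' : Fin 4 → ℂ} (h : ∀ t : ℂ, ∏ i, (t - w i) = ∏ i, (t - w' i)) :
    e1 w = e1 w' ∧ e2 w = e2 w' ∧ e3 w = e3 w' ∧ e4 w = e4 w' := by
  have h0 := h 0
  have h1 := h 1
  have h2 := h (-1)
  have h3 := h 2
  rw [prod_sub, prod_sub] at h0 h1 h2 h3
  have E4 : e4 w = e4 w' := by linear_combination h0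
  have E2 : e2 w = e2 w' := by linear_combination h1 / 2 + h2 / 2 - E4
  have S : e1 w + e3 w = e1 w' + e3 w' := by linear_combination h2 / 2 - h1 / 2
  have S' : 8 * e1 w + 2 * e3 w = 8 * e1 w' + 2 * e3 w' := by
    linear_combination -h3 + 4 * E2 + E4
  have E1 : e1 w = e1 w' := by linear_combination S' / 6 - S / 3
  exact ⟨E1, E2, by linear_combination S - E1, E4⟩

theorem sym_perm (w : Fin 4 → ℂ) (σ : Equiv.Perm (Fin 4)) :
    e1 (w ∘ σ) = e1 w ∧ e2 (w ∘ σ) = e2 w ∧ e3 (w ∘ σ) = e3 w ∧ e4 (w ∘ σ) = e4 w :=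
  sym_eq fun t => Equiv.prod_comp σ fun i => t - w i

/-- equal symmetric functions: the tuples differ by a permutation -/
theorem exists_perm {w w' : Fin 4 → ℂ} (hw' : Function.Injective w')
    (h1 : e1 w' = e1 w) (h2 : e2 w' = e2 w) (h3 : e3 w' = e3 w) (h4 : e4 w' = e4 w) :
    ∃ σ : Equiv.Perm (Fin 4), w' = w ∘ σ := by
  have key : ∀ i, ∃ j, w' i = w j := by
    intro i
    have h : ∏ j, (w' i - w j) = 0 := by
      rw [prod_sub, ← h1, ← h2, ← h3, ← h4, ← prod_sub]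
      exact Finset.prod_eq_zero (Finset.mem_univ i) (sub_self _)
    obtain ⟨j, -, hj⟩ := Finset.prod_eq_zero_iff.1 h
    exact ⟨j, sub_eq_zero.1 hj⟩
  choose f hf using key
  have hinj : Function.Injective f := fun a b hab => hw' (by rw [hf, hf, hab])
  refine ⟨Equiv.ofBijective f ⟨hinj, Finite.surjective_of_injective hinj⟩, ?_⟩
  funext i
  exact hf i

/-- The invariants of degree zero. -/
noncomputable def F (w : Fin 4 → ℂ) : ℂ × ℂ × ℂ × ℂ :=
  (II w / e4 w, e2 w ^ 2 / e4 w, e2 w * JJ w / e4 w ^ 2, JJ w ^ 2 / e4 w ^ 3)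

theorem F_perm (w : Fin 4 → ℂ) (σ : Equiv.Perm (Fin 4)) : F (w ∘ σ) = F w := by
  obtain ⟨h1, h2, h3, h4⟩ := sym_perm w σ
  simp only [F, II, JJ, h1, h2, h3, h4]

theorem e_smul (c : ℂ) (w : Fin 4 → ℂ) :
    e1 (fun i => c * w i) = c * e1 w ∧ e2 (fun i => c * w i) = c ^ 2 * e2 w ∧
    e3 (fun i => c * w i) = c ^ 3 * e3 w ∧ e4 (fun i => c * w i) = c ^ 4 * e4 w := by
  simp only [e1, e2, e3, e4]
  refine ⟨by ring, by ring, by ring, by ring⟩

theorem F_smul {c : ℂ} (hc : c ≠ 0) (w : Fin 4 → ℂ) : F (fun i => c * w i) = F w := by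
  obtain ⟨h1, h2, h3, h4⟩ := e_smul c w
  simp only [F, II, JJ, h1, h2, h3, h4]
  rcases eq_or_ne (e4 w) 0 with h0 | h0
  · simp [h0]
  refine Prod.ext ?_ (Prod.ext ?_ (Prod.ext ?_ ?_)) <;> simp only <;> field_simp

theorem e_inv {w : Fin 4 → ℂ} (hw : ∀ i, w i ≠ 0) :
    e1 (fun i => (w i)⁻¹) = e3 w / e4 w ∧ e2 (fun i => (w i)⁻¹) = e2 w / e4 w ∧
    e3 (fun i => (w i)⁻¹) = e1 w / e4 w ∧ e4 (fun i => (w i)⁻¹) = 1 / e4 w := by
  have h0 := hw 0
  have h1 := hw 1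
  have h2 := hw 2
  have h3 := hw 3
  simp only [e1, e2, e3, e4]
  refine ⟨?_, ?_, ?_, ?_⟩ <;> field_simp <;> ring

theorem e4_ne {w : Fin 4 → ℂ} (hw : ∀ i, w i ≠ 0) : e4 w ≠ 0 := by
  simp [e4, hw]

theorem F_inv {w : Fin 4 → ℂ} (hw : ∀ i, w i ≠ 0) : F (fun i => (w i)⁻¹) = F w := by
  obtain ⟨h1, h2, h3, h4⟩ := e_inv hw
  have h0 := e4_ne hw
  simp only [F, II, JJ, h1, h2, h3, h4]
  refine Prod.ext ?_ (Prod.ext ?_ (Prod.ext ?_ ?_)) <;> simp only <;> field_simp <;> ring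

/-- the fibres of `F` -/
theorem F_fibre_one {w w' : Fin 4 → ℂ} (hw : ∀ i, w i ≠ 0) (hw' : Function.Injective w')
    (h4 : e4 w = 1) (h4' : e4 w' = 1) (hF : F w = F w') :
    ∃ c : ℂ, c ≠ 0 ∧ ∃ σ : Equiv.Perm (Fin 4),
      (∀ i, w' i = c * w (σ i)) ∨ (∀ i, w' i = c * (w (σ i))⁻¹) := by
  simp only [F, h4, h4', div_one, one_pow, Prod.mk.injEq] at hF
  obtain ⟨hI, hA, hAJ, hJ⟩ := hF
  -- the sign
  have hsign : (e2 w' = e2 w ∧ JJ w' = JJ w) ∨ (e2 w' = -e2 w ∧ JJ w' = -JJ w) := by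
    have hA' : (e2 w - e2 w') * (e2 w + e2 w') = 0 := by linear_combination hA
    have hJ' : (JJ w - JJ w') * (JJ w + JJ w') = 0 := by linear_combination hJ
    rcases eq_or_ne (e2 w) 0 with h0 | h0
    · have h0' : e2 w' = 0 := by
        have : e2 w' ^ 2 = 0 := by rw [← hA, h0]; ring
        simpa using this
      rcases mul_eq_zero.1 hJ' with h | h
      · left; exact ⟨by rw [h0, h0'], by linear_combination -h⟩
      · right; exact ⟨by rw [h0, h0']; ring, by linear_combination h⟩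
    · rcases mul_eq_zero.1 hA' with h | h
      · left
        have he : e2 w' = e2 w := by linear_combination -h
        refine ⟨he, ?_⟩
        rw [he] at hAJ
        exact (mul_left_cancel₀ h0 hAJ).symm
      · right
        have he : e2 w' = -e2 w := by linear_combination h
        refine ⟨he, ?_⟩
        rw [he] at hAJ
        have : e2 w * JJ w' = e2 w * (-JJ w) := by linear_combination hAJ
        exact mul_left_cancel₀ h0 this
  -- reduce to the plus sign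
  have main : ∀ v : Fin 4 → ℂ, (∀ i, v i ≠ 0) → e4 v = 1 → II v = II w' → e2 w' = e2 v →
      JJ w' = JJ v → ∃ c : ℂ, c ≠ 0 ∧ ∃ σ : Equiv.Perm (Fin 4),
      (∀ i, w' i = c * v (σ i)) ∨ (∀ i, w' i = c * (v (σ i))⁻¹) := by
    intro v hv v4 vI v2 vJ
    have hp : e1 w' * e3 w' = e1 v * e3 v := by
      simp only [II, v4, h4', v2] at vI
      linear_combination (1 / 3 : ℂ) * vI
    have hk : e1 w' ^ 2 + e3 w' ^ 2 = e1 v ^ 2 + e3 v ^ 2 := by
      simp only [JJ, v4, h4', v2] at vJ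
      linear_combination (-1 / 27 : ℂ) * vJ + (1 / 3 : ℂ) * e2 v * hp
    have hs : (e1 w' + e3 w' - (e1 v + e3 v)) * (e1 w' + e3 w' + (e1 v + e3 v)) = 0 := by
      linear_combination hk + 2 * hp
    have hd : (e1 w' - e3 w' - (e1 v - e3 v)) * (e1 w' - e3 w' + (e1 v - e3 v)) = 0 := by
      linear_combination hk - 2 * hp
    have hv1 := e_smul (-1) v
    have hvi := e_inv hv
    have hvi1 := e_smul (-1) (fun i => (v i)⁻¹)
    rcases mul_eq_zero.1 hs with hs | hs <;> rcases mul_eq_zero.1 hd with hd | hd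
    · -- equal
      obtain ⟨σ, hσ⟩ := exists_perm hw' (w := v) (by linear_combination (1/2:ℂ) * hs + (1/2:ℂ) * hd)
        v2 (by linear_combination (1/2:ℂ) * hs - (1/2:ℂ) * hd) (by rw [h4', v4])
      exact ⟨1, one_ne_zero, σ, Or.inl fun i => by rw [hσ]; simp⟩
    · -- swapped
      obtain ⟨σ, hσ⟩ := exists_perm hw' (w := fun i => (v i)⁻¹)
        (by rw [hvi.1, v4]; linear_combination (1/2:ℂ) * hs + (1/2:ℂ) * hd)
        (by rw [hvi.2.1, v4, v2]; ring)
        (by rw [hvi.2.2.1, v4]; linear_combination (1/2:ℂ) * hs - (1/2:ℂ) * hd)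
        (by rw [hvi.2.2.2, v4, h4']; norm_num)
      exact ⟨1, one_ne_zero, σ, Or.inr fun i => by rw [hσ]; simp⟩
    · -- minus swapped
      obtain ⟨σ, hσ⟩ := exists_perm hw' (w := fun i => (-1) * (v i)⁻¹)
        (by rw [hvi1.1, hvi.1, v4]; linear_combination (1/2:ℂ) * hs + (1/2:ℂ) * hd)
        (by rw [hvi1.2.1, hvi.2.1, v4, v2]; ring)
        (by rw [hvi1.2.2.1, hvi.2.2.1, v4]; linear_combination (1/2:ℂ) * hs - (1/2:ℂ) * hd)
        (by rw [hvi1.2.2.2, hvi.2.2.2, v4, h4']; norm_num)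
      exact ⟨-1, by norm_num, σ, Or.inr fun i => by rw [hσ]; simp⟩
    · -- minus
      obtain ⟨σ, hσ⟩ := exists_perm hw' (w := fun i => (-1) * v i)
        (by rw [hv1.1]; linear_combination (1/2:ℂ) * hs + (1/2:ℂ) * hd)
        (by rw [hv1.2.1, v2]; ring)
        (by rw [hv1.2.2.1]; linear_combination (1/2:ℂ) * hs - (1/2:ℂ) * hd)
        (by rw [hv1.2.2.2, v4, h4']; norm_num)
      exact ⟨-1, by norm_num, σ, Or.inl fun i => by rw [hσ]; simp⟩
  rcases hsign with ⟨s2, sJ⟩ | ⟨s2, sJ⟩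
  · exact main w hw h4 hI s2 sJ
  · -- rotate by `i`
    have hI2 : Complex.I ^ 2 = -1 := Complex.I_sq
    have hI3 : Complex.I ^ 3 = -Complex.I := by rw [pow_succ, hI2]; ring
    have hI4 : Complex.I ^ 4 = 1 := by
      rw [show (4 : ℕ) = 2 * 2 from rfl, pow_mul, hI2]; norm_num
    obtain ⟨g1, g2, g3, g4⟩ := e_smul Complex.I w
    rw [hI2] at g2
    rw [hI3] at g3
    rw [hI4, one_mul] at g4
    have hmul : (Complex.I * e1 w) * (-Complex.I * e3 w) = e1 w * e3 w := by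
      linear_combination (-(e1 w * e3 w)) * hI2
    obtain ⟨c, hc, σ, h⟩ := main (fun i => Complex.I * w i)
      (fun i => mul_ne_zero Complex.I_ne_zero (hw i)) (by rw [g4, h4])
      (by
        rw [← hI]
        simp only [II, g1, g2, g3, g4, h4]
        linear_combination (3 * e1 w * e3 w) * hI2)
      (by rw [g2, s2]; ring)
      (by
        rw [sJ]
        simp only [JJ, g1, g2, g3, g4, h4]
        linear_combination (-9 * e1 w * e2 w * e3 w + 27 * e3 w ^ 2 + 27 * e1 w ^ 2) * hI2)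
    rcases h with h | h
    · exact ⟨c * Complex.I, mul_ne_zero hc Complex.I_ne_zero, σ,
        Or.inl fun i => by rw [h i]; ring⟩
    · exact ⟨c * Complex.I⁻¹, mul_ne_zero hc (inv_ne_zero Complex.I_ne_zero), σ,
        Or.inr fun i => by rw [h i, mul_inv]; ring⟩

theorem exists_normalize {w : Fin 4 → ℂ} (hw : ∀ i, w i ≠ 0) :
    ∃ c : ℂ, c ≠ 0 ∧ e4 (fun i => c * w i) = 1 := by
  have h0 := e4_ne hw
  obtain ⟨c, hc⟩ := IsAlgClosed.exists_pow_nat_eq (e4 w)⁻¹ (n := 4) (by norm_num)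
  have hc0 : c ≠ 0 := by
    rintro rfl
    rw [zero_pow (by norm_num)] at hc
    exact inv_ne_zero h0 hc.symm
  exact ⟨c, hc0, by rw [(e_smul c w).2.2.2, hc, inv_mul_cancel₀ h0]⟩

theorem F_fibre {w w' : Fin 4 → ℂ} (hw : ∀ i, w i ≠ 0) (hw0' : ∀ i, w' i ≠ 0)
    (hw' : Function.Injective w') (hF : F w = F w') :
    ∃ c : ℂ, c ≠ 0 ∧ ∃ σ : Equiv.Perm (Fin 4),
      (∀ i, w' i = c * w (σ i)) ∨ (∀ i, w' i = c * (w (σ i))⁻¹) := by
  obtain ⟨a, ha, ha4⟩ := exists_normalize hw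
  obtain ⟨b, hb, hb4⟩ := exists_normalize hw0'
  obtain ⟨c, hc, σ, h⟩ := F_fibre_one (w := fun i => a * w i) (w' := fun i => b * w' i)
    (fun i => mul_ne_zero ha (hw i)) (fun i j hij => hw' (mul_left_cancel₀ hb hij)) ha4 hb4
    (by rw [F_smul ha, F_smul hb, hF])
  rcases h with h | h
  · refine ⟨b⁻¹ * c * a, mul_ne_zero (mul_ne_zero (inv_ne_zero hb) hc) ha, σ, Or.inl fun i => ?_⟩
    have := h i
    field_simp
    linear_combination this
  · refine ⟨b⁻¹ * c * a⁻¹, mul_ne_zero (mul_ne_zero (inv_ne_zero hb) hc) (inv_ne_zero ha), σ,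
      Or.inr fun i => ?_⟩
    have h1 := h i
    simp only [mul_inv] at h1
    have hwi := hw (σ i)
    field_simp
    field_simp at h1
    linear_combination h1

/-- surjectivity -/
theorem F_surj {u a b c : ℂ} (h1 : a * c = b ^ 2) :
    ∃ w : Fin 4 → ℂ, e4 w = 1 ∧ F w = (u, a, b, c) := by
  obtain ⟨A, J, hA, hAJ, hJ⟩ : ∃ A J : ℂ, A ^ 2 = a ∧ A * J = b ∧ J ^ 2 = c := by
    rcases eq_or_ne a 0 with h0 | h0
    · have hb : b = 0 := by
        have : b ^ 2 = 0 := by rw [← h1, h0]; ring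
        simpa using this
      obtain ⟨J, hJ⟩ := IsAlgClosed.exists_pow_nat_eq c (n := 2) (by norm_num)
      exact ⟨0, J, by rw [h0]; ring, by rw [hb]; ring, hJ⟩
    · obtain ⟨A, hA⟩ := IsAlgClosed.exists_pow_nat_eq a (n := 2) (by norm_num)
      have hA0 : A ≠ 0 := by rintro rfl; apply h0; rw [← hA]; ring
      refine ⟨A, b / A, hA, by field_simp, ?_⟩
      rw [div_pow, ← h1, hA]
      field_simp
  obtain ⟨s, hs⟩ := IsAlgClosed.exists_pow_nat_eq
    ((72 * A + 9 * A * ((12 + A ^ 2 - u) / 3) - 2 * A ^ 3 - J) / 27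
      + 2 * ((12 + A ^ 2 - u) / 3)) (n := 2) (by norm_num)
  -- roots of `t ^ 2 - s t + p`
  obtain ⟨d, hd⟩ := IsAlgClosed.exists_pow_nat_eq (s ^ 2 - 4 * ((12 + A ^ 2 - u) / 3)) (n := 2)
    (by norm_num)
  set E1 : ℂ := (s + d) / 2 with hE1
  set E3 : ℂ := (s - d) / 2 with hE3
  have hp : E1 * E3 = (12 + A ^ 2 - u) / 3 := by
    rw [hE1, hE3]; linear_combination (-1 / 4 : ℂ) * hd
  have hk : E1 ^ 2 + E3 ^ 2 = (72 * A + 9 * A * ((12 + A ^ 2 - u) / 3) - 2 * A ^ 3 - J) / 27 := by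
    rw [hE1, hE3]; linear_combination (1 / 2 : ℂ) * hd + hs
  -- the quartic
  obtain ⟨w, hw⟩ : ∃ w : Fin 4 → ℂ, e1 w = E1 ∧ e2 w = A ∧ e3 w = E3 ∧ e4 w = 1 := by
    have key : ∃ w : Fin 4 → ℂ, ∀ t : ℂ, ∏ i, (t - w i) =
        t ^ 4 - E1 * t ^ 3 + A * t ^ 2 - E3 * t + 1 := by
      classical
      set P : Polynomial ℂ := Polynomial.X ^ 4 - Polynomial.C E1 * Polynomial.X ^ 3
        + Polynomial.C A * Polynomial.X ^ 2 - Polynomial.C E3 * Polynomial.X
        + Polynomial.C 1 with hP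
      have hdeg : P.natDegree = 4 := by rw [hP]; compute_degree!
      have hmon : P.Monic := by rw [hP]; monicity!
      have hsplit : P.Splits := IsAlgClosed.splits P
      have hcard : P.roots.card = 4 := by rw [← hdeg]; exact hsplit.natDegree_eq_card_roots.symm
      obtain ⟨l, hl⟩ : ∃ l : List ℂ, (l : Multiset ℂ) = P.roots := Quotient.exists_rep _
      have hlen : l.length = 4 := by rw [← Multiset.coe_card, hl, hcard]
      refine ⟨fun i => l.get (i.cast hlen.symm), fun t => ?_⟩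
      have hprod : P = (P.roots.map fun a => Polynomial.X - Polynomial.C a).prod := by
        have := hsplit.eq_prod_roots
        rwa [hmon.leadingCoeff, Polynomial.C_1, one_mul] at this
      have heval : P.eval t = (P.roots.map fun a => t - a).prod := by
        conv_lhs => rw [hprod]
        rw [Polynomial.eval_multiset_prod, Multiset.map_map]
        simp
      have h1 : P.eval t = t ^ 4 - E1 * t ^ 3 + A * t ^ 2 - E3 * t + 1 := by
        rw [hP]; simp
      rw [← h1, heval, ← hl]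
      match l, hlen with
      | [a0, a1, a2, a3], _ =>
        simp [Fin.prod_univ_four, mul_assoc]
    obtain ⟨w, hw⟩ := key
    refine ⟨w, ?_⟩
    have h0 := hw 0
    have h1 := hw 1
    have h2 := hw (-1)
    have h3 := hw 2
    rw [prod_sub] at h0 h1 h2 h3
    have K4 : e4 w = 1 := by linear_combination h0
    have K2 : e2 w = A := by linear_combination h1 / 2 + h2 / 2 - K4
    have S : e1 w + e3 w = E1 + E3 := by linear_combination h2 / 2 - h1 / 2
    have S' : 8 * e1 w + 2 * e3 w = 8 * E1 + 2 * E3 := by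
      linear_combination -h3 + 4 * K2 + K4
    have K1 : e1 w = E1 := by linear_combination S' / 6 - S / 3
    exact ⟨K1, K2, by linear_combination S - K1, K4⟩
  obtain ⟨g1, g2, g3, g4⟩ := hw
  refine ⟨w, g4, ?_⟩
  have hII : II w = u := by
    simp only [II, g1, g2, g3, g4]
    linear_combination (-3 : ℂ) * hp
  have hJJ : JJ w = J := by
    simp only [JJ, g1, g2, g3, g4]
    linear_combination (9 * A : ℂ) * hp - 27 * hk
  simp only [F, hII, hJJ, g2, g4, div_one, one_pow, hA, hAJ, hJ]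

end Pool.Agent.TH546.M2
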