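import Pool.Agent.TH546.M2.Sph

/-! Configurations of `4 + 2` points of the sphere and their invariants. -/

set_option autoImplicit false

open Topology Filter OnePoint Matrix

namespace Pool.Agent.TH546.M2

/-- the index set -/
abbrev Idx : Type := Fin 4 ⊕ Fin 2

/-- six distinct points of the sphere -/
def Conf : Set (Idx → OnePoint ℂ) := {x | Function.Injective x}

/-- the coordinates of the first four points when the last two are moved to `0, ∞` -/
noncomputable def WW (v : Idx → Vec) (i : Fin 4) : ℂ :=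
  br (v (Sum.inl i)).1 (v (Sum.inr 0)).1 / br (v (Sum.inr 1)).1 (v (Sum.inl i)).1

/-- the invariants -/
noncomputable def Psi (x : Idx → OnePoint ℂ) : ℂ × ℂ × ℂ × ℂ := F (WW fun i => sec (x i))

theorem Psi_hp (v : Idx → Vec) : Psi (fun i => hp (v i)) = F (WW v) := by
  have h : ∀ i, ∃ c : ℂ, c ≠ 0 ∧ (sec (hp (v i))).1 = (c * (v i).1.1, c * (v i).1.2) :=
    fun i => exists_scale (hp_sec _).symm
  choose c hc hs using h
  have : (WW fun i => sec (hp (v i))) = fun i => (c (Sum.inr 0) / c (Sum.inr 1)) * WW v i := by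
    funext i
    simp only [WW, br, hs]
    have h1 := hc (Sum.inl i)
    have h2 := hc (Sum.inr 1)
    rw [show c (Sum.inl i) * (v (Sum.inl i)).1.1 * (c (Sum.inr 0) * (v (Sum.inr 0)).1.2) -
        c (Sum.inl i) * (v (Sum.inl i)).1.2 * (c (Sum.inr 0) * (v (Sum.inr 0)).1.1) =
        c (Sum.inl i) * c (Sum.inr 0) * ((v (Sum.inl i)).1.1 * (v (Sum.inr 0)).1.2 -
        (v (Sum.inl i)).1.2 * (v (Sum.inr 0)).1.1) by ring,
      show c (Sum.inr 1) * (v (Sum.inr 1)).1.1 * (c (Sum.inl i) * (v (Sum.inl i)).1.2) -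
        c (Sum.inr 1) * (v (Sum.inr 1)).1.2 * (c (Sum.inl i) * (v (Sum.inl i)).1.1) =
        c (Sum.inl i) * c (Sum.inr 1) * ((v (Sum.inr 1)).1.1 * (v (Sum.inl i)).1.2 -
        (v (Sum.inr 1)).1.2 * (v (Sum.inl i)).1.1) by ring, mul_div_mul_comm,
      mul_div_mul_left _ _ h1]
  rw [Psi, this, F_smul (div_ne_zero (hc _) (hc _))]

theorem br_ne {v : Idx → Vec} (hv : Function.Injective fun i => hp (v i)) {i j : Idx}
    (hij : i ≠ j) : br (v i).1 (v j).1 ≠ 0 := fun h => hij (hv ((hp_eq_iff _ _).2 h))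

theorem WW_ne {v : Idx → Vec} (hv : Function.Injective fun i => hp (v i)) (i : Fin 4) :
    WW v i ≠ 0 :=
  div_ne_zero (br_ne hv (by simp)) (br_ne hv (by simp))

theorem WW_inj {v : Idx → Vec} (hv : Function.Injective fun i => hp (v i)) :
    Function.Injective (WW v) := by
  intro i j hij
  by_contra hne
  have h1 : br (v (Sum.inr 1)).1 (v (Sum.inl i)).1 ≠ 0 := br_ne hv (by simp)
  have h2 : br (v (Sum.inr 1)).1 (v (Sum.inl j)).1 ≠ 0 := br_ne hv (by simp)
  have h3 : br (v (Sum.inl i)).1 (v (Sum.inl j)).1 ≠ 0 := br_ne hv (by simpa using hne)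
  have h4 : br (v (Sum.inr 0)).1 (v (Sum.inr 1)).1 ≠ 0 := br_ne hv (by simp)
  unfold WW at hij
  rw [div_eq_div_iff h1 h2] at hij
  apply mul_ne_zero h3 h4
  simp only [br] at hij ⊢
  linear_combination -hij

theorem F_mem_V {w : Fin 4 → ℂ} (h0 : ∀ i, w i ≠ 0) (hi : Function.Injective w) : F w ∈ V := by
  have h4 := e4_ne h0
  have hd := (disc_ne w).2 hi
  refine ⟨?_, ?_⟩
  · simp only [F]; field_simp
  · simp only [F]
    intro h
    apply hd
    field_simp at h
    exact h

theorem Psi_mem_V {x : Idx → OnePoint ℂ} (hx : x ∈ Conf) : Psi x ∈ V := by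
  have h : Function.Injective fun i => hp (sec (x i)) := by
    simp only [hp_sec]; exact hx
  exact F_mem_V (WW_ne h) (WW_inj h)

theorem continuousAt_F {w : Fin 4 → ℂ} (h0 : ∀ i, w i ≠ 0) : ContinuousAt F w := by
  have h4 := e4_ne h0
  have := continuous_e2; have := continuous_e4; have := continuous_II; have := continuous_JJ
  unfold F
  refine ContinuousAt.prodMk ?_ (ContinuousAt.prodMk ?_ (ContinuousAt.prodMk ?_ ?_))
  · exact ContinuousAt.div (by fun_prop) (by fun_prop) h4
  · exact ContinuousAt.div (by fun_prop) (by fun_prop) h4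
  · exact ContinuousAt.div (by fun_prop) (by fun_prop) (pow_ne_zero _ h4)
  · exact ContinuousAt.div (by fun_prop) (by fun_prop) (pow_ne_zero _ h4)

/-- the quotient map from homogeneous coordinates to configurations -/
theorem conf_quot : IsOpenQuotientMap (Conf.restrictPreimage (Pi.map fun _ : Idx => hp)) :=
  (IsOpenQuotientMap.piMap fun _ => hp_quot).restrictPreimage Conf

/-- the invariants as a map `Conf → V` -/
noncomputable def PsiV (x : Conf) : V := ⟨Psi x.1, Psi_mem_V x.2⟩

theorem PsiV_cont : Continuous PsiV := by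
  rw [Topology.IsInducing.subtypeVal.continuous_iff, ← conf_quot.continuous_comp_iff]
  rw [continuous_iff_continuousAt]
  intro v
  have hv : Function.Injective fun i => hp (v.1 i) := v.2
  have h1 : ((Subtype.val ∘ PsiV) ∘ Conf.restrictPreimage (Pi.map fun _ : Idx => hp)) =
      fun v => F (WW v.1) := by
    funext v
    exact Psi_hp v.1
  rw [h1]
  refine ContinuousAt.comp (g := F) (continuousAt_F (WW_ne hv)) ?_
  rw [continuousAt_pi]
  intro i
  unfold WW
  have hc : ∀ j : Idx, Continuous fun v : ((Pi.map fun _ : Idx => hp) ⁻¹' Conf : Set (Idx → Vec)) =>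
      ((v.1 j).1 : ℂ × ℂ) := fun j =>
    continuous_subtype_val.comp ((continuous_apply j).comp continuous_subtype_val)
  have hb : ∀ j k : Idx, Continuous
      fun v : ((Pi.map fun _ : Idx => hp) ⁻¹' Conf : Set (Idx → Vec)) =>
      br (v.1 j).1 (v.1 k).1 := fun j k => by
    have h1 := (hc j).fst
    have h2 := (hc j).snd
    have h3 := (hc k).fst
    have h4 := (hc k).snd
    exact (h1.mul h4).sub (h2.mul h3)
  exact ContinuousAt.div (hb _ _).continuousAt (hb _ _).continuousAt (br_ne hv (by simp))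

/-- the standard configuration `w_0, …, w_3, 0, ∞` -/
noncomputable def std (w : Fin 4 → ℂ) : Idx → OnePoint ℂ :=
  Sum.elim (fun i => (w i : OnePoint ℂ)) ![((0 : ℂ) : OnePoint ℂ), ∞]

theorem std_inl (w : Fin 4 → ℂ) (i : Fin 4) : std w (Sum.inl i) = (w i : OnePoint ℂ) := rfl
theorem std_zero (w : Fin 4 → ℂ) : std w (Sum.inr 0) = ((0 : ℂ) : OnePoint ℂ) := rfl
theorem std_one (w : Fin 4 → ℂ) : std w (Sum.inr 1) = ∞ := rfl

theorem Psi_std (w : Fin 4 → ℂ) : Psi (std w) = F w := by
  have : (WW fun i => sec (std w i)) = w := by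
    funext i
    simp only [WW, std_inl, std_zero, std_one, sec_coe, sec_infty, br]
    simp
  rw [Psi, this]

theorem std_mem {w : Fin 4 → ℂ} (h0 : ∀ i, w i ≠ 0) (hi : Function.Injective w) :
    std w ∈ Conf := by
  intro a b hab
  rcases a with a | a <;> rcases b with b | b
  · rw [std_inl, std_inl, OnePoint.coe_eq_coe] at hab
    rw [hi hab]
  · fin_cases b
    · simp only [Fin.zero_eta, std_inl, std_zero, OnePoint.coe_eq_coe] at hab
      exact absurd hab (h0 a)
    · simp only [Fin.mk_one, std_inl, std_one] at hab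
      exact absurd hab (OnePoint.coe_ne_infty _)
  · fin_cases a
    · simp only [Fin.zero_eta, std_inl, std_zero, OnePoint.coe_eq_coe] at hab
      exact absurd hab.symm (h0 b)
    · simp only [Fin.mk_one, std_inl, std_one] at hab
      exact absurd hab (OnePoint.infty_ne_coe _)
  · fin_cases a <;> fin_cases b <;> simp_all [std]

/-- `PsiV` is a quotient map. -/
theorem PsiV_quotient : IsQuotientMap PsiV := by
  have hs : Continuous fun w : NN => (⟨std w.1.1, std_mem (NN.ne w) (NN.inj w)⟩ : Conf) := by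
    refine Continuous.subtype_mk ?_ _
    rw [continuous_pi_iff]
    rintro (i | i)
    · simp only [std_inl]
      exact OnePoint.continuous_coe.comp
        ((continuous_apply i).comp (continuous_subtype_val.comp continuous_subtype_val))
    · fin_cases i
      · simp only [Fin.zero_eta, std_zero]; exact continuous_const
      · simp only [Fin.mk_one, std_one]; exact continuous_const
  have hcomp : (PsiV ∘ fun w : NN => (⟨std w.1.1, std_mem (NN.ne w) (NN.inj w)⟩ : Conf)) = GN := by
    funext w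
    apply Subtype.ext
    rw [GN_val]
    exact Psi_std _
  refine IsQuotientMap.of_comp hs PsiV_cont ?_
  rw [hcomp]
  exact GN_quotient

/-- Two configurations are equivalent if they differ by a Moebius map and a permutation which
preserves the last two points. -/
def Eqv (x y : Idx → OnePoint ℂ) : Prop :=
  ∃ A : GL (Fin 2) ℂ, ∃ (σ : Equiv.Perm (Fin 4)) (τ : Equiv.Perm (Fin 2)),
    ∀ i, y i = A • x (Equiv.sumCongr σ τ i)

theorem Psi_smul (A : GL (Fin 2) ℂ) (x : Idx → OnePoint ℂ) : Psi (fun i => A • x i) = Psi x := by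
  have h1 : (fun i => A • x i) = fun i => hp (act A (sec (x i))) := by
    funext i
    rw [← smul_hp, hp_sec]
  rw [h1, Psi_hp, Psi]
  congr 1
  funext i
  simp only [WW, act, br_act]
  rw [mul_div_mul_left _ _ (det_ne A)]

theorem Psi_perm {x : Idx → OnePoint ℂ} (hx : x ∈ Conf) (σ : Equiv.Perm (Fin 4))
    (τ : Equiv.Perm (Fin 2)) : Psi (fun i => x (Equiv.sumCongr σ τ i)) = Psi x := by
  have h : Function.Injective fun i => hp (sec (x i)) := by
    simp only [hp_sec]; exact hx
  have hτ : τ = 1 ∨ τ = Equiv.swap 0 1 := by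
    revert τ; decide
  rcases hτ with rfl | rfl
  · have : (WW fun i => sec (x (Equiv.sumCongr σ 1 i))) = (WW fun i => sec (x i)) ∘ σ := by
      funext i
      simp [WW]
    rw [Psi, this, F_perm, Psi]
  · have : (WW fun i => sec (x (Equiv.sumCongr σ (Equiv.swap 0 1) i))) =
        fun i => (((WW fun i => sec (x i)) ∘ σ) i)⁻¹ := by
      funext i
      simp only [WW, Equiv.sumCongr_apply, Sum.map_inl, Sum.map_inr, Equiv.swap_apply_left,
        Equiv.swap_apply_right, Function.comp, inv_div, br]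
      rw [← neg_div_neg_eq]
      congr 1 <;> ring
    rw [Psi, this, F_inv (w := (WW fun i => sec (x i)) ∘ σ) (fun i => WW_ne h _), F_perm, Psi]

theorem Psi_of_eqv {x y : Idx → OnePoint ℂ} (hx : x ∈ Conf) (h : Eqv x y) : Psi y = Psi x := by
  obtain ⟨A, σ, τ, h⟩ := h
  have : y = fun i => A • x (Equiv.sumCongr σ τ i) := funext h
  rw [this, Psi_smul A fun i => x (Equiv.sumCongr σ τ i), Psi_perm hx]

/-- normal form -/
theorem exists_std {x : Idx → OnePoint ℂ} (hx : x ∈ Conf) :
    ∃ A : GL (Fin 2) ℂ, ∃ w : Fin 4 → ℂ, (∀ i, w i ≠ 0) ∧ Function.Injective w ∧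
      (∀ i, A • x i = std w i) := by
  set v : Idx → Vec := fun i => sec (x i) with hv
  have hxv : ∀ i, x i = hp (v i) := fun i => (hp_sec _).symm
  have h : Function.Injective fun i => hp (v i) := by
    simp only [hv, hp_sec]; exact hx
  have hd : br (v (Sum.inr 0)).1 (v (Sum.inr 1)).1 ≠ 0 := br_ne h (by simp)
  have hdet : (!![(v (Sum.inr 0)).1.2, -(v (Sum.inr 0)).1.1; -(v (Sum.inr 1)).1.2,
      (v (Sum.inr 1)).1.1] : Matrix (Fin 2) (Fin 2) ℂ).det ≠ 0 := by
    rw [Matrix.det_fin_two_of]
    intro h0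
    apply hd
    unfold br
    linear_combination -h0
  refine ⟨Matrix.GeneralLinearGroup.mkOfDetNeZero
    !![(v (Sum.inr 0)).1.2, -(v (Sum.inr 0)).1.1; -(v (Sum.inr 1)).1.2, (v (Sum.inr 1)).1.1] hdet,
    WW v, WW_ne h, WW_inj h, ?_⟩
  · intro i
    rw [hxv, smul_hp]
    have hb1 : ∀ u : ℂ × ℂ, (v (Sum.inr 0)).1.2 * u.1 + -(v (Sum.inr 0)).1.1 * u.2 =
        br u (v (Sum.inr 0)).1 := fun u => by unfold br; ring
    have hb2 : ∀ u : ℂ × ℂ, -(v (Sum.inr 1)).1.2 * u.1 + (v (Sum.inr 1)).1.1 * u.2 =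
        br (v (Sum.inr 1)).1 u := fun u => by unfold br; ring
    rcases i with i | i
    · rw [std_inl, hp_ne]
      · simp [act, actV, WW, Matrix.GeneralLinearGroup.mkOfDetNeZero, ← hb1, ← hb2]
      · have : br (v (Sum.inr 1)).1 (v (Sum.inl i)).1 ≠ 0 := br_ne h (by simp)
        rw [← hb2] at this
        simpa [act, actV, Matrix.GeneralLinearGroup.mkOfDetNeZero] using this
    · fin_cases i
      · simp only [Fin.zero_eta]
        rw [std_zero, hp_ne]
        · have : br (v (Sum.inr 0)).1 (v (Sum.inr 0)).1 = 0 := by unfold br; ring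
          rw [← hb1] at this
          have h2 : ((act (Matrix.GeneralLinearGroup.mkOfDetNeZero
            !![(v (Sum.inr 0)).1.2, -(v (Sum.inr 0)).1.1; -(v (Sum.inr 1)).1.2,
              (v (Sum.inr 1)).1.1] hdet) (v (Sum.inr 0))).1.1) = 0 := by
            simpa [act, actV, Matrix.GeneralLinearGroup.mkOfDetNeZero] using this
          rw [h2, zero_div]
        · have : br (v (Sum.inr 1)).1 (v (Sum.inr 0)).1 ≠ 0 := br_ne h (by simp)
          rw [← hb2] at this
          simpa [act, actV, Matrix.GeneralLinearGroup.mkOfDetNeZero] using this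
      · simp only [Fin.mk_one]
        rw [std_one, hp_zero]
        have : br (v (Sum.inr 1)).1 (v (Sum.inr 1)).1 = 0 := by unfold br; ring
        rw [← hb2] at this
        simpa [act, actV, Matrix.GeneralLinearGroup.mkOfDetNeZero] using this

theorem eqv_of_Psi {x y : Idx → OnePoint ℂ} (hx : x ∈ Conf) (hy : y ∈ Conf)
    (h : Psi x = Psi y) : Eqv x y := by
  obtain ⟨A, w, w0, wi, hw⟩ := exists_std hx
  obtain ⟨B, w', w0', wi', hw'⟩ := exists_std hy
  have e1 : F w = Psi x := by
    rw [← Psi_std, ← Psi_smul A x]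
    congr 1
    exact (funext hw).symm
  have e2 : F w' = Psi y := by
    rw [← Psi_std, ← Psi_smul B y]
    congr 1
    exact (funext hw').symm
  obtain ⟨c, hc, σ, hσ⟩ := F_fibre w0 w0' wi' (by rw [e1, e2, h])
  rcases hσ with hσ | hσ
  · set C : GL (Fin 2) ℂ := Matrix.GeneralLinearGroup.mkOfDetNeZero !![c, 0; 0, 1]
      (by rw [Matrix.det_fin_two_of]; simpa using hc) with hC
    refine ⟨B⁻¹ * C * A, σ, 1, fun i => ?_⟩
    rw [mul_smul, mul_smul, eq_inv_smul_iff, hw, hw']
    rcases i with i | i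
    · simp only [Equiv.sumCongr_apply, Sum.map_inl, std_inl]
      rw [hσ, OnePoint.smul_some_eq_ite]
      simp [hC, Matrix.GeneralLinearGroup.mkOfDetNeZero]
    · fin_cases i
      · simp only [Fin.zero_eta, Equiv.sumCongr_apply, Sum.map_inr, Equiv.Perm.coe_one, id_eq,
          std_zero]
        rw [OnePoint.smul_some_eq_ite]
        simp [hC, Matrix.GeneralLinearGroup.mkOfDetNeZero]
      · simp only [Fin.mk_one, Equiv.sumCongr_apply, Sum.map_inr, Equiv.Perm.coe_one, id_eq,
          std_one]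
        rw [OnePoint.smul_infty_eq_ite]
        simp [hC, Matrix.GeneralLinearGroup.mkOfDetNeZero]
  · set C : GL (Fin 2) ℂ := Matrix.GeneralLinearGroup.mkOfDetNeZero !![0, c; 1, 0]
      (by rw [Matrix.det_fin_two_of]; simpa using hc) with hC
    refine ⟨B⁻¹ * C * A, σ, Equiv.swap 0 1, fun i => ?_⟩
    rw [mul_smul, mul_smul, eq_inv_smul_iff, hw, hw']
    rcases i with i | i
    · simp only [Equiv.sumCongr_apply, Sum.map_inl, std_inl]
      rw [hσ, OnePoint.smul_some_eq_ite]
      simp [hC, Matrix.GeneralLinearGroup.mkOfDetNeZero, w0, div_eq_mul_inv]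
    · fin_cases i
      · simp only [Fin.zero_eta, Equiv.sumCongr_apply, Sum.map_inr, Equiv.swap_apply_left,
          std_zero, std_one]
        rw [OnePoint.smul_infty_eq_ite]
        simp [hC, Matrix.GeneralLinearGroup.mkOfDetNeZero]
      · simp only [Fin.mk_one, Equiv.sumCongr_apply, Sum.map_inr, Equiv.swap_apply_right,
          std_zero, std_one]
        rw [OnePoint.smul_some_eq_ite]
        simp [hC, Matrix.GeneralLinearGroup.mkOfDetNeZero]

end Pool.Agent.TH546.M2
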