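import Mathlib

/-! Teichmueller space and the mapping class group of the sphere with six marked points. -/

set_option autoImplicit false

noncomputable section

open Topology unitInterval OnePoint

namespace Pool.Agent.TH546.M2

/-- The Riemann sphere `ℂ ∪ {∞}`. -/
abbrev Sph : Type := OnePoint ℂ

/-- The six marked points `0, 1, 2, 3, 4, 5` of the sphere. -/
def Pts : Set Sph := {z | ∃ k : Fin 6, z = (((k : ℕ) : ℂ) : OnePoint ℂ)}

/-- The homeomorphism `h` of the sphere is isotopic to the identity by an isotopy which fixes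
every point of `Q`: there is a level-preserving homeomorphism of `S² × [0, 1]` which is the
identity on level `0`, is `h` on level `1` and fixes `Q × [0, 1]` pointwise. -/
def IsotopicRel (Q : Set Sph) (h : Sph ≃ₜ Sph) : Prop :=
  ∃ Φ : (Sph × I) ≃ₜ (Sph × I), (∀ p, (Φ p).2 = p.2) ∧ (∀ x, Φ (x, 0) = (x, 0)) ∧
    (∀ x, Φ (x, 1) = (h x, 1)) ∧ ∀ x ∈ Q, ∀ t, Φ (x, t) = (x, t)

theorem IsotopicRel.one (Q : Set Sph) : IsotopicRel Q 1 :=
  ⟨Homeomorph.refl _, fun _ => rfl, fun _ => rfl, fun _ => rfl, fun _ _ _ => rfl⟩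

theorem IsotopicRel.mul {Q : Set Sph} {a b : Sph ≃ₜ Sph} (ha : IsotopicRel Q a)
    (hb : IsotopicRel Q b) : IsotopicRel Q (a * b) := by
  obtain ⟨Φ, h1, h2, h3, h4⟩ := ha
  obtain ⟨Ψ, k1, k2, k3, k4⟩ := hb
  refine ⟨Ψ.trans Φ, fun p => ?_, fun x => ?_, fun x => ?_, fun x hx t => ?_⟩
  · rw [Homeomorph.trans_apply, h1, k1]
  · rw [Homeomorph.trans_apply, k2, h2]
  · rw [Homeomorph.trans_apply, k3, h3]; rfl
  · rw [Homeomorph.trans_apply, k4 x hx, h4 x hx]

theorem IsotopicRel.inv {Q : Set Sph} {a : Sph ≃ₜ Sph} (ha : IsotopicRel Q a) :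
    IsotopicRel Q a⁻¹ := by
  obtain ⟨Φ, h1, h2, h3, h4⟩ := ha
  refine ⟨Φ.symm, fun p => ?_, fun x => ?_, fun x => ?_, fun x hx t => ?_⟩
  · have := h1 (Φ.symm p)
    rw [Homeomorph.apply_symm_apply] at this
    exact this.symm
  · rw [Homeomorph.symm_apply_eq, h2]
  · rw [Homeomorph.symm_apply_eq, h3]
    congr 1
    exact (a.apply_symm_apply x).symm
  · rw [Homeomorph.symm_apply_eq, h4 x hx]

theorem IsotopicRel.conj {Q : Set Sph} {a k : Sph ≃ₜ Sph} (ha : IsotopicRel Q a)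
    (hk : k '' Q = Q) : IsotopicRel Q (k * a * k⁻¹) := by
  obtain ⟨Φ, h1, h2, h3, h4⟩ := ha
  have hs : ∀ x, k (k.symm x) = x := k.apply_symm_apply
  refine ⟨((k.symm.prodCongr (Homeomorph.refl I)).trans Φ).trans
    (k.prodCongr (Homeomorph.refl I)), fun p => ?_, fun x => ?_, fun x => ?_, fun x hx t => ?_⟩
  · simp [h1]
  · simp [h2]
  · simp [h3]
  · obtain ⟨y, hy, rfl⟩ : x ∈ k '' Q := by rw [hk]; exact hx
    simp [h4 y hy]

/-- The group of orientation-preserving homeomorphisms of the sphere, that is, of the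
homeomorphisms isotopic to the identity. -/
def HomeoPlus : Subgroup (Sph ≃ₜ Sph) where
  carrier := {h | IsotopicRel ∅ h}
  one_mem' := IsotopicRel.one _
  mul_mem' := fun ha hb => ha.mul hb
  inv_mem' := fun ha => ha.inv

/-- The compact-open topology on the orientation-preserving homeomorphisms. -/
instance : TopologicalSpace HomeoPlus :=
  TopologicalSpace.induced (fun h => (⟨h.1, h.1.continuous⟩ : C(Sph, Sph))) inferInstance

/-- The orientation-preserving homeomorphisms which map the set of marked points to itself. -/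
def HomeoPts : Subgroup (Sph ≃ₜ Sph) where
  carrier := {h | h ∈ HomeoPlus ∧ h '' Pts = Pts}
  one_mem' := ⟨HomeoPlus.one_mem, Set.image_id _⟩
  mul_mem' := by
    rintro a b ⟨ha, ha'⟩ ⟨hb, hb'⟩
    refine ⟨HomeoPlus.mul_mem ha hb, ?_⟩
    have : ⇑(a * b) = ⇑a ∘ ⇑b := rfl
    rw [this, Set.image_comp, hb', ha']
  inv_mem' := by
    rintro a ⟨ha, ha'⟩
    refine ⟨HomeoPlus.inv_mem ha, ?_⟩
    have : (a⁻¹ : Sph ≃ₜ Sph) '' (a '' Pts) = Pts := by
      rw [← Set.image_comp]
      have : ⇑(a⁻¹ : Sph ≃ₜ Sph) ∘ ⇑a = id := funext fun x => a.symm_apply_apply x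
      rw [this, Set.image_id]
    rwa [ha'] at this

/-- The homeomorphisms isotopic to the identity relative to the marked points. -/
def HomeoZero : Subgroup HomeoPts where
  carrier := {h | IsotopicRel Pts (h : Sph ≃ₜ Sph)}
  one_mem' := IsotopicRel.one _
  mul_mem' := fun ha hb => ha.mul hb
  inv_mem' := fun ha => ha.inv

instance : HomeoZero.Normal := ⟨fun _ ha g => IsotopicRel.conj ha g.2.2⟩

/-- The mapping class group of the sphere with six marked points (which may be permuted). -/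
def Mod06 : Type := HomeoPts ⧸ HomeoZero

instance : Group Mod06 := QuotientGroup.Quotient.group HomeoZero

/-- Equivalence of markings: the homeomorphism `h` from the sphere with the marked points `Pts`
to the Riemann sphere with the marked points `h(Pts)` is equivalent to `h'` if
`h' = A ∘ h ∘ k` for a Moebius map `A` and a homeomorphism `k` isotopic to the identity relative
to `Pts`. -/
def markSetoid : Setoid HomeoPlus where
  r h h' := ∃ A : GL (Fin 2) ℂ, ∃ k : Sph ≃ₜ Sph, IsotopicRel Pts k ∧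
    ∀ z, (h' : Sph ≃ₜ Sph) z = A • (h : Sph ≃ₜ Sph) (k z)
  iseqv := by
    refine ⟨fun h => ⟨1, 1, IsotopicRel.one _, fun z => by simp⟩, ?_, ?_⟩
    · rintro h h' ⟨A, k, hk, H⟩
      refine ⟨A⁻¹, k⁻¹, hk.inv, fun z => ?_⟩
      rw [H, inv_smul_smul]
      congr 1
      exact (k.apply_symm_apply z).symm
    · rintro h h' h'' ⟨A, k, hk, H⟩ ⟨A', k', hk', H'⟩
      refine ⟨A' * A, k * k', hk.mul hk', fun z => ?_⟩
      rw [H', H, mul_smul]
      rfl

/-- The Teichmueller space of the sphere with six marked points: marked Riemann spheres with six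
marked points, with the quotient of the compact-open topology. -/
def Teich06 : Type := Quotient markSetoid

instance : TopologicalSpace Teich06 := inferInstanceAs (TopologicalSpace (Quotient markSetoid))

/-- A homeomorphism in `HomeoPts` as an element of `HomeoPlus`. -/
def HomeoPts.toPlus (k : HomeoPts) : HomeoPlus := ⟨k.1, k.2.1⟩

/-- The mapping class group acts on Teichmueller space by change of marking:
`[k] • [h] = [h ∘ k⁻¹]`. -/
instance : MulAction Mod06 Teich06 where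
  smul m t := Quotient.liftOn₂' m t
    (fun k h => (Quotient.mk markSetoid (h * (HomeoPts.toPlus k)⁻¹) : Teich06))
    (by
      intro k₁ h₁ k₂ h₂ hk hh
      rw [QuotientGroup.leftRel_apply] at hk
      obtain ⟨A, κ, hκ, H⟩ := hh
      have hk' : IsotopicRel Pts ((k₁ : Sph ≃ₜ Sph)⁻¹ * (k₂ : Sph ≃ₜ Sph)) := hk
      refine Quotient.sound ⟨A, (k₁ : Sph ≃ₜ Sph) * (κ * ((k₁ : Sph ≃ₜ Sph)⁻¹ *
        (k₂ : Sph ≃ₜ Sph))⁻¹) * (k₁ : Sph ≃ₜ Sph)⁻¹, (hκ.mul hk'.inv).conj k₁.2.2, fun z => ?_⟩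
      have e1 : ((h₂ * (HomeoPts.toPlus k₂)⁻¹ : HomeoPlus) : Sph ≃ₜ Sph) z =
          (h₂ : Sph ≃ₜ Sph) (((k₂ : Sph ≃ₜ Sph)⁻¹) z) := rfl
      rw [e1, H]
      have e2 : ((h₁ * (HomeoPts.toPlus k₁)⁻¹ : HomeoPlus) : Sph ≃ₜ Sph)
          (((k₁ : Sph ≃ₜ Sph) * (κ * ((k₁ : Sph ≃ₜ Sph)⁻¹ *
        (k₂ : Sph ≃ₜ Sph))⁻¹) * (k₁ : Sph ≃ₜ Sph)⁻¹) z) = (((h₁ : Sph ≃ₜ Sph) *
          (k₁ : Sph ≃ₜ Sph)⁻¹) * (((k₁ : Sph ≃ₜ Sph) * (κ * ((k₁ : Sph ≃ₜ Sph)⁻¹ *
        (k₂ : Sph ≃ₜ Sph))⁻¹) * (k₁ : Sph ≃ₜ Sph)⁻¹))) z := rfl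
      rw [e2]
      have e3 : (((h₁ : Sph ≃ₜ Sph) *
          (k₁ : Sph ≃ₜ Sph)⁻¹) * (((k₁ : Sph ≃ₜ Sph) * (κ * ((k₁ : Sph ≃ₜ Sph)⁻¹ *
        (k₂ : Sph ≃ₜ Sph))⁻¹) * (k₁ : Sph ≃ₜ Sph)⁻¹))) =
          (h₁ : Sph ≃ₜ Sph) * (κ * (k₂ : Sph ≃ₜ Sph)⁻¹) := by group
      rw [e3]
      rfl)
  one_smul t := by
    induction t using Quotient.inductionOn' with
    | h h => 
      refine Quotient.sound ⟨1, 1, IsotopicRel.one _, fun z => ?_⟩
      rw [one_smul]
      rfl
  mul_smul m m' t := by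
    induction t using Quotient.inductionOn' with
    | h h =>
      induction m using Quotient.inductionOn' with
      | h k =>
        induction m' using Quotient.inductionOn' with
        | h k' =>
          refine Quotient.sound ⟨1, 1, IsotopicRel.one _, fun z => ?_⟩
          rw [one_smul]
          rfl

/-- The quotient space `Teich06 / Γ` of Teichmueller space by a group `Γ` of mapping classes. -/
def Cover (Γ : Subgroup Mod06) : Type := Quotient (MulAction.orbitRel Γ Teich06)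

instance (Γ : Subgroup Mod06) : TopologicalSpace (Cover Γ) :=
  inferInstanceAs (TopologicalSpace (Quotient (MulAction.orbitRel Γ Teich06)))

end Pool.Agent.TH546.M2
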