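import Pool.Agent.TH546.M2.Trans

/-! The quotient of Teichmueller space by a group of mapping classes of index `15` is
homeomorphic to the affine variety `V`. -/

set_option autoImplicit false

open Topology Filter OnePoint Matrix unitInterval

namespace Pool.Agent.TH546.M2

noncomputable section

theorem base_mem_Pts (i : Idx) : base i ∈ Pts := by rw [← range_base]; exact ⟨i, rfl⟩

theorem finite_Pts : Pts.Finite := by rw [← range_base]; exact Set.finite_range base

instance : Finite Pts := finite_Pts

theorem maps_Pts (k : HomeoPts) {z : Sph} (hz : z ∈ Pts) : k.1 z ∈ Pts := by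
  have := k.2.2
  rw [← this]
  exact ⟨z, hz, rfl⟩

/-- the permutation of the marked points -/
def permHom : HomeoPts →* Equiv.Perm Pts where
  toFun k :=
    { toFun := fun z => ⟨k.1 z.1, maps_Pts k z.2⟩
      invFun := fun z => ⟨k.1.symm z.1, maps_Pts k⁻¹ z.2⟩
      left_inv := fun z => Subtype.ext (k.1.symm_apply_apply z.1)
      right_inv := fun z => Subtype.ext (k.1.apply_symm_apply z.1) }
  map_one' := by ext z; rfl
  map_mul' a b := by ext z; rfl

/-- the homeomorphisms which preserve the pair `{4, 5}` -/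
def KK : Subgroup HomeoPts where
  carrier := {k | ∀ i : Fin 2, ∃ j : Fin 2, k.1 (base (Sum.inr i)) = base (Sum.inr j)}
  one_mem' := fun i => ⟨i, rfl⟩
  mul_mem' := by
    intro a b ha hb i
    obtain ⟨j, hj⟩ := hb i
    obtain ⟨l, hl⟩ := ha j
    refine ⟨l, ?_⟩
    rw [← hl, ← hj]
    rfl
  inv_mem' := by
    intro a ha i
    have ha' : ∀ i : Fin 2, ∃ j : Fin 2, a.1 (base (Sum.inr i)) = base (Sum.inr j) := ha
    choose f hf using ha'
    have hinj : Function.Injective f := by
      intro i j hij
      have h1 : a.1 (base (Sum.inr i)) = a.1 (base (Sum.inr j)) := by rw [hf, hf, hij]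
      simpa using base_mem (a.1.injective h1)
    obtain ⟨j, hj⟩ := (Finite.surjective_of_injective hinj) i
    refine ⟨j, ?_⟩
    show a.1.symm (base (Sum.inr i)) = _
    rw [← hj, ← hf, Homeomorph.symm_apply_apply]

theorem ker_le_KK : permHom.ker ≤ KK := by
  intro k hk i
  refine ⟨i, ?_⟩
  have h1 : permHom k = 1 := hk
  have := congrArg (fun e : Equiv.Perm Pts => (e ⟨base (Sum.inr i), base_mem_Pts _⟩).1) h1
  exact this

/-- the mapping class of a homeomorphism -/
def toMod : HomeoPts →* Mod06 := QuotientGroup.mk' HomeoZero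

/-- the point of Teichmueller space given by a homeomorphism -/
def toT (h : HomeoPlus) : Teich06 := Quotient.mk markSetoid h

/-- the group `Γ` of the mapping classes preserving the pair `{4, 5}` -/
def GG : Subgroup Mod06 := KK.map toMod

theorem GG_finiteIndex : GG.FiniteIndex := by
  have h1 : permHom.ker.FiniteIndex := inferInstance
  have h2 : KK.FiniteIndex := Subgroup.finiteIndex_of_le ker_le_KK
  refine ⟨?_⟩
  have h3 := KK.index_map_dvd (QuotientGroup.mk'_surjective HomeoZero)
  exact ne_zero_of_dvd_ne_zero h2.index_ne_zero h3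

/-- the permutation of the base configuration given by an element of `KK` -/
theorem exists_perms {k : HomeoPts} (hk : k ∈ KK) :
    ∃ (ρ : Equiv.Perm (Fin 4)) (τ : Equiv.Perm (Fin 2)),
      ∀ i, k.1 (base i) = base (Equiv.sumCongr ρ τ i) := by
  have h1 : ∀ i : Fin 2, ∃ j : Fin 2, k.1 (base (Sum.inr i)) = base (Sum.inr j) := hk
  choose f hf using h1
  have hfi : Function.Injective f := by
    intro i j hij
    have h1 : k.1 (base (Sum.inr i)) = k.1 (base (Sum.inr j)) := by rw [hf, hf, hij]
    simpa using base_mem (k.1.injective h1)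
  have hfs := Finite.surjective_of_injective hfi
  have h2 : ∀ i : Fin 4, ∃ j : Fin 4, k.1 (base (Sum.inl i)) = base (Sum.inl j) := by
    intro i
    have h3 := maps_Pts k (base_mem_Pts (Sum.inl i))
    rw [← range_base] at h3
    obtain ⟨j | j, hj⟩ := h3
    · exact ⟨j, hj.symm⟩
    · exfalso
      obtain ⟨l, rfl⟩ := hfs j
      rw [← hf] at hj
      simpa using base_mem (k.1.injective hj)
  choose g hg using h2
  have hgi : Function.Injective g := by
    intro i j hij
    have h1 : k.1 (base (Sum.inl i)) = k.1 (base (Sum.inl j)) := by rw [hg, hg, hij]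
    simpa using base_mem (k.1.injective h1)
  refine ⟨Equiv.ofBijective g ⟨hgi, Finite.surjective_of_injective hgi⟩,
    Equiv.ofBijective f ⟨hfi, hfs⟩, ?_⟩
  rintro (i | i)
  · exact hg i
  · exact hf i

/-- the projection from homeomorphisms to the quotient of Teichmueller space -/
def qq (h : HomeoPlus) : Cover GG :=
  Quotient.mk (MulAction.orbitRel GG Teich06) (toT h)

theorem qq_quotient : IsQuotientMap qq := by
  have h1 : IsQuotientMap toT := isQuotientMap_quot_mk
  have h2 : IsQuotientMap (fun t : Teich06 => (Quotient.mk (MulAction.orbitRel GG Teich06) t :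
    Cover GG)) := isQuotientMap_quot_mk
  exact h2.comp h1

theorem ev_val (h : HomeoPlus) (i : Idx) : (ev h).1 i = h.1 (base i) := rfl

theorem smul_mk (k : HomeoPts) (h : HomeoPlus) :
    toMod k • toT h = toT (h * (HomeoPts.toPlus k)⁻¹) := rfl

theorem qq_eq {h h' : HomeoPlus} (H : qq h = qq h') : PsiV (ev h) = PsiV (ev h') := by
  have h1 : (MulAction.orbitRel GG Teich06) (toT h) (toT h') := Quotient.exact H
  rw [MulAction.orbitRel_apply] at h1
  obtain ⟨⟨m, hm⟩, hm'⟩ := h1
  obtain ⟨k, hk, rfl⟩ := hm
  have h2 : toT (h' * (HomeoPts.toPlus k)⁻¹) = toT h := hm'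
  obtain ⟨A, κ, hκ, H2⟩ := Quotient.exact h2
  obtain ⟨Φ, -, -, p3, p4⟩ := hκ
  have hfix : ∀ z ∈ Pts, κ z = z := fun z hz => by
    have e1 := p3 z
    rw [p4 z hz 1] at e1
    exact (congrArg Prod.fst e1).symm
  obtain ⟨ρ, τ, hρ⟩ := exists_perms (KK.inv_mem hk)
  apply Subtype.ext
  refine Psi_of_eqv (ev h').2 ⟨A, ρ, τ, fun i => ?_⟩
  rw [ev_val, ev_val, ← hρ, H2, hfix _ (base_mem_Pts i)]
  rfl

theorem eq_qq {h h' : HomeoPlus} (H : PsiV (ev h) = PsiV (ev h')) : qq h = qq h' := by
  obtain ⟨A, ρ, τ, hA⟩ := eqv_of_Psi (ev h).2 (ev h').2 (congrArg Subtype.val H)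
  simp only [ev_val] at hA
  -- the homeomorphism `k = h⁻¹ A⁻¹ h'`
  set k : Sph ≃ₜ Sph := h.1⁻¹ * (mob A)⁻¹ * h'.1 with hk
  have hkb : ∀ i, k (base i) = base (Equiv.sumCongr ρ τ i) := by
    intro i
    show h.1.symm (A⁻¹ • h'.1 (base i)) = _
    rw [hA, inv_smul_smul, Homeomorph.symm_apply_apply]
  have hkp : k ∈ HomeoPlus := HomeoPlus.mul_mem (HomeoPlus.mul_mem (HomeoPlus.inv_mem h.2)
    (HomeoPlus.inv_mem (mob_mem A))) h'.2
  have hkP : k '' Pts = Pts := by
    rw [← range_base, ← Set.range_comp]
    have : ⇑k ∘ base = base ∘ (Equiv.sumCongr ρ τ) := funext hkb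
    rw [this, (Equiv.sumCongr ρ τ).surjective.range_comp]
  have hkK : (⟨k, hkp, hkP⟩ : HomeoPts) ∈ KK := fun i => ⟨τ i, hkb _⟩
  refine Quotient.sound ?_
  show (MulAction.orbitRel GG Teich06) (toT h) (toT h')
  rw [MulAction.orbitRel_apply]
  refine ⟨⟨toMod ⟨k, hkp, hkP⟩, ⟨_, hkK, rfl⟩⟩, ?_⟩
  show toMod ⟨k, hkp, hkP⟩ • toT h' = toT h
  rw [smul_mk]
  refine Quotient.sound ⟨A⁻¹, 1, IsotopicRel.one _, fun z => ?_⟩
  have e1 : ((h' * (HomeoPts.toPlus ⟨k, hkp, hkP⟩)⁻¹ : HomeoPlus) : Sph ≃ₜ Sph)
      ((1 : Sph ≃ₜ Sph) z) = (h'.1 * k⁻¹) z := rfl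
  rw [e1]
  have e2 : h'.1 * k⁻¹ = mob A * h.1 := by rw [hk]; group
  rw [e2]
  show h.1 z = A⁻¹ • (A • h.1 z)
  rw [inv_smul_smul]

/-- two quotient maps with the same fibres -/
def homeoOfQuot {X Y Z : Type} [TopologicalSpace X] [TopologicalSpace Y] [TopologicalSpace Z]
    {f : X → Y} {g : X → Z} (hf : IsQuotientMap f) (hg : IsQuotientMap g)
    (h : ∀ x x', f x = f x' ↔ g x = g x') : Y ≃ₜ Z :=
  have e1 : ∀ x, g (Function.surjInv hf.surjective (f x)) = g x := fun x =>
    (h _ _).1 (Function.surjInv_eq hf.surjective (f x))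
  have e2 : ∀ x, f (Function.surjInv hg.surjective (g x)) = f x := fun x =>
    (h _ _).2 (Function.surjInv_eq hg.surjective (g x))
  { toFun := fun y => g (Function.surjInv hf.surjective y)
    invFun := fun z => f (Function.surjInv hg.surjective z)
    left_inv := fun y => by
      obtain ⟨x, rfl⟩ := hf.surjective y
      show f (Function.surjInv hg.surjective (g (Function.surjInv hf.surjective (f x)))) = f x
      rw [e1, e2]
    right_inv := fun z => by
      obtain ⟨x, rfl⟩ := hg.surjective z
      show g (Function.surjInv hf.surjective (f (Function.surjInv hg.surjective (g x)))) = g x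
      rw [e2, e1]
    continuous_toFun := by
      rw [hf.continuous_iff]
      have : (fun y => g (Function.surjInv hf.surjective y)) ∘ f = g := funext e1
      rw [this]
      exact hg.continuous
    continuous_invFun := by
      rw [hg.continuous_iff]
      have : (fun z => f (Function.surjInv hg.surjective z)) ∘ g = f := funext e2
      rw [this]
      exact hf.continuous }

/-- The quotient of Teichmueller space is homeomorphic to the affine variety `V`. -/
def homV : Cover GG ≃ₜ V :=
  homeoOfQuot qq_quotient (PsiV_quotient.comp ev_quotient.isQuotientMap)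
    fun _ _ => ⟨qq_eq, eq_qq⟩

/-- the rotation of `V` by a complex number of modulus one -/
def rotF (z : Circle) (p : V) : V :=
  ⟨(p.1.1, (z : ℂ) ^ 2 * p.1.2.1, (z : ℂ) * p.1.2.2.1, p.1.2.2.2), by
    obtain ⟨h1, h2⟩ := p.2
    refine ⟨?_, h2⟩
    simp only
    linear_combination (z : ℂ) ^ 2 * h1⟩

theorem rotF_mul (z w : Circle) (p : V) : rotF (z * w) p = rotF z (rotF w p) := by
  apply Subtype.ext
  simp only [rotF, Circle.coe_mul]
  refine Prod.ext rfl (Prod.ext ?_ (Prod.ext ?_ rfl)) <;> simp only <;> ring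

theorem rotF_one (p : V) : rotF 1 p = p := by
  apply Subtype.ext
  simp only [rotF, Circle.coe_one]
  refine Prod.ext rfl (Prod.ext ?_ (Prod.ext ?_ rfl)) <;> simp only <;> ring

theorem rotF_cont : Continuous fun q : Circle × V => rotF q.1 q.2 := by
  refine Continuous.subtype_mk ?_ _
  have h1 : Continuous fun q : Circle × V => (q.1 : ℂ) :=
    continuous_subtype_val.comp continuous_fst
  have h2 : Continuous fun q : Circle × V => (q.2 : ℂ × ℂ × ℂ × ℂ) :=
    continuous_subtype_val.comp continuous_snd
  exact h2.fst.prodMk (((h1.pow 2).mul h2.snd.fst).prodMk ((h1.mul h2.snd.snd.fst).prodMk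
    h2.snd.snd.snd))

/-- the circle acts on the quotient of Teichmueller space -/
def actF (z : Circle) (y : Cover GG) : Cover GG := homV.symm (rotF z (homV y))

theorem actF_mul (z w : Circle) (y : Cover GG) : actF (z * w) y = actF z (actF w y) := by
  simp only [actF, Homeomorph.apply_symm_apply, rotF_mul]

theorem actF_one (y : Cover GG) : actF 1 y = y := by
  simp only [actF, rotF_one, Homeomorph.symm_apply_apply]

theorem actF_cont : Continuous fun q : Circle × Cover GG => actF q.1 q.2 := by
  have h1 : Continuous fun q : Circle × Cover GG => (q.1, homV q.2) :=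
    continuous_fst.prodMk (homV.continuous.comp continuous_snd)
  have h2 := Continuous.comp rotF_cont h1
  exact Continuous.comp homV.symm.continuous h2

theorem actF_cont_right (z : Circle) : Continuous (actF z) := by
  have h1 : Continuous fun y : Cover GG => (z, y) := Continuous.prodMk_right z
  have h2 := Continuous.comp actF_cont h1
  exact h2

/-- the circle acts on the quotient of Teichmueller space -/
def actH : Circle →* (Cover GG ≃ₜ Cover GG) where
  toFun z :=
    { toFun := actF z
      invFun := actF z⁻¹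
      left_inv := fun y => by rw [← actF_mul, inv_mul_cancel, actF_one]
      right_inv := fun y => by rw [← actF_mul, mul_inv_cancel, actF_one]
      continuous_toFun := actF_cont_right z
      continuous_invFun := actF_cont_right z⁻¹ }
  map_one' := by ext y; exact actF_one y
  map_mul' z w := by ext y; exact actF_mul z w y

theorem actH_apply (z : Circle) (y : Cover GG) : actH z y = actF z y := rfl

theorem actH_inj : Function.Injective actH := by
  intro z w h
  have hp : ((0, 1, 1, 1) : ℂ × ℂ × ℂ × ℂ) ∈ V := by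
    refine ⟨by simp, by simp⟩
  have h1 : actF z (homV.symm ⟨_, hp⟩) = actF w (homV.symm ⟨_, hp⟩) := by
    rw [← actH_apply, ← actH_apply, h]
  simp only [actF, Homeomorph.apply_symm_apply] at h1
  have h2 := homV.symm.injective h1
  have h3 := congrArg (fun p : V => p.1.2.2.1) h2
  simp only [rotF, mul_one] at h3
  exact Circle.ext h3

theorem actH_homotopic (θ : ℝ) : ContinuousMap.Homotopic
    (⟨actH (Circle.exp θ), (actH (Circle.exp θ)).continuous⟩ : C(Cover GG, Cover GG))
    (ContinuousMap.id (Cover GG)) := by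
  have h1 : Continuous fun q : I × Cover GG => (Circle.exp ((1 - (q.1 : ℝ)) * θ), q.2) := by
    have : Continuous fun q : I × Cover GG => (1 - (q.1 : ℝ)) * θ :=
      (continuous_const.sub (continuous_subtype_val.comp continuous_fst)).mul continuous_const
    exact (Circle.exp.continuous.comp this).prodMk continuous_snd
  have h2 : Continuous fun q : I × Cover GG => actF (Circle.exp ((1 - (q.1 : ℝ)) * θ)) q.2 := by
    have h3 := Continuous.comp actF_cont h1
    exact h3
  refine ⟨⟨⟨fun q => actF (Circle.exp ((1 - (q.1 : ℝ)) * θ)) q.2, h2⟩,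
    fun y => ?_, fun y => ?_⟩⟩
  · simp only [Set.Icc.coe_zero, sub_zero, one_mul]
    rfl
  · simp only [Set.Icc.coe_one, sub_self, zero_mul, Circle.exp_zero]
    exact actF_one y

theorem main : ∃ Γ : Subgroup Mod06, Γ.FiniteIndex ∧ ∀ n : ℕ, 1 ≤ n →
    ∃ f : Cover Γ ≃ₜ Cover Γ, orderOf f = n ∧
      ContinuousMap.Homotopic (⟨f, f.continuous⟩ : C(Cover Γ, Cover Γ))
        (ContinuousMap.id (Cover Γ)) := by
  refine ⟨GG, GG_finiteIndex, fun n hn => ⟨actH (Circle.exp (2 * Real.pi / n)), ?_,
    actH_homotopic _⟩⟩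
  rw [orderOf_injective actH actH_inj]
  have h1 : Function.Injective Circle.coeHom := fun a b h => Circle.ext h
  rw [← orderOf_injective Circle.coeHom h1]
  have h2 : (Circle.coeHom (Circle.exp (2 * Real.pi / n)) : ℂ) =
      Complex.exp (2 * Real.pi * Complex.I / n) := by
    show ((Circle.exp (2 * Real.pi / n) : Circle) : ℂ) = _
    rw [Circle.coe_exp]
    congr 1
    push_cast
    ring
  rw [h2]
  exact (Complex.isPrimitiveRoot_exp n (by omega)).eq_orderOf.symm

end

end Pool.Agent.TH546.M2
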