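import Pool.Agent.TH546.M2.Cnf
import Pool.Agent.TH546.M2.Defs

/-! Paths avoiding roots; Moebius maps are isotopic to the identity; configurations are
connected. -/

set_option autoImplicit false

open Topology Filter OnePoint Matrix unitInterval

namespace Pool.Agent.TH546.M2

/-- a path from `0` to `1` avoiding the roots of a polynomial -/
theorem exists_path (P : Polynomial ℂ) (h0 : P.eval 0 ≠ 0) (h1 : P.eval 1 ≠ 0) :
    ∃ γ : I → ℂ, Continuous γ ∧ γ 0 = 0 ∧ γ 1 = 1 ∧ ∀ t, P.eval (γ t) ≠ 0 := by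
  have hP : P ≠ 0 := by rintro rfl; simp at h0
  have hc : ({z : ℂ | P.eval z = 0} : Set ℂ).Countable := by
    have : ({z : ℂ | P.eval z = 0} : Set ℂ) = (P.roots.toFinset : Set ℂ) := by
      ext z; simp [hP]
    rw [this]
    exact (Finset.finite_toSet _).countable
  have hrank : 1 < Module.rank ℝ ℂ := by rw [Complex.rank_real_complex]; norm_num
  have hpc := hc.isPathConnected_compl_of_one_lt_rank hrank
  have hj := hpc.joinedIn 0 h0 1 h1
  refine ⟨hj.somePath, hj.somePath.continuous, hj.somePath.source, hj.somePath.target,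
    fun t => hj.somePath_mem t⟩

/-- an isotopy from a continuous family of bijections -/
theorem isotopicRel_of_family {Q : Set Sph} {h : Sph ≃ₜ Sph} (H : Sph × I → Sph)
    (hc : Continuous H) (hb : ∀ t, Function.Bijective fun z => H (z, t))
    (h0 : ∀ z, H (z, 0) = z) (h1 : ∀ z, H (z, 1) = h z) (hQ : ∀ z ∈ Q, ∀ t, H (z, t) = z) :
    IsotopicRel Q h := by
  have hbij : Function.Bijective fun p : Sph × I => (H p, p.2) := by
    constructor
    · rintro ⟨z, t⟩ ⟨z', t'⟩ hz
      simp only [Prod.mk.injEq] at hz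
      obtain ⟨hz1, rfl⟩ := hz
      rw [(hb t).1 hz1]
    · rintro ⟨z, t⟩
      obtain ⟨z', hz'⟩ := (hb t).2 z
      exact ⟨(z', t), Prod.ext hz' rfl⟩
  have hcont : Continuous fun p : Sph × I => (H p, p.2) := hc.prodMk continuous_snd
  refine ⟨Continuous.homeoOfEquivCompactToT2 (f := Equiv.ofBijective _ hbij) hcont,
    fun p => rfl, fun x => ?_, fun x => ?_, fun x hx t => ?_⟩
  · exact Prod.ext (h0 x) rfl
  · exact Prod.ext (h1 x) rfl
  · exact Prod.ext (hQ x hx t) rfl

/-- joint continuity of Moebius maps -/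
theorem continuous_smul_family {X : Type} [TopologicalSpace X] (A : X → GL (Fin 2) ℂ)
    (hA : ∀ i j, Continuous fun x => (A x) i j) :
    Continuous fun p : X × Sph => A p.1 • p.2 := by
  have hq : IsOpenQuotientMap (Prod.map (id : X → X) hp) := IsOpenQuotientMap.id.prodMap hp_quot
  rw [← hq.continuous_comp_iff]
  have : ((fun p : X × Sph => A p.1 • p.2) ∘ Prod.map (id : X → X) hp) =
      fun p : X × Vec => hp (act (A p.1) p.2) := by
    funext p
    simp only [Function.comp, Prod.map, id]
    exact smul_hp _ _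
  rw [this]
  have hc1 : Continuous fun p : X × Vec => p.2.1.1 := by fun_prop
  have hc2 : Continuous fun p : X × Vec => p.2.1.2 := by fun_prop
  have hA' : ∀ i j, Continuous fun p : X × Vec => (A p.1) i j := fun i j =>
    (hA i j).comp continuous_fst
  have h1 : Continuous fun p : X × Vec => (act (A p.1) p.2).1.1 :=
    ((hA' 0 0).mul hc1).add ((hA' 0 1).mul hc2)
  have h2 : Continuous fun p : X × Vec => (act (A p.1) p.2).1.2 :=
    ((hA' 1 0).mul hc1).add ((hA' 1 1).mul hc2)
  have h3 : Continuous fun p : X × Vec => (act (A p.1) p.2).1 := h1.prodMk h2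
  have h4 : Continuous fun p : X × Vec => act (A p.1) p.2 := continuous_induced_rng.2 h3
  exact hp_cont.comp h4

theorem continuous_smul_const (A : GL (Fin 2) ℂ) : Continuous fun z : Sph => A • z := by
  have := continuous_smul_family (fun _ : Unit => A) (fun _ _ => continuous_const)
  exact this.comp (Continuous.prodMk_right ())

/-- a Moebius map as a homeomorphism -/
noncomputable def mob (A : GL (Fin 2) ℂ) : Sph ≃ₜ Sph where
  toFun z := A • z
  invFun z := A⁻¹ • z
  left_inv z := inv_smul_smul A z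
  right_inv z := smul_inv_smul A z
  continuous_toFun := continuous_smul_const A
  continuous_invFun := continuous_smul_const A⁻¹

theorem mob_apply (A : GL (Fin 2) ℂ) (z : Sph) : mob A z = A • z := rfl

theorem mk_apply {M : Matrix (Fin 2) (Fin 2) ℂ} (h : M.det ≠ 0) (i j : Fin 2) :
    (Matrix.GeneralLinearGroup.mkOfDetNeZero M h) i j = M i j := rfl

/-- the line from the identity to a matrix -/
def lineM (A : GL (Fin 2) ℂ) (t : ℂ) : Matrix (Fin 2) (Fin 2) ℂ :=
  !![1 + t * (A 0 0 - 1), t * A 0 1; t * A 1 0, 1 + t * (A 1 1 - 1)]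

theorem lineM_det (A : GL (Fin 2) ℂ) (t : ℂ) : (lineM A t).det =
    (1 + t * (A 0 0 - 1)) * (1 + t * (A 1 1 - 1)) - (t * A 0 1) * (t * A 1 0) := by
  rw [lineM, Matrix.det_fin_two_of]

theorem lineM_zero (A : GL (Fin 2) ℂ) : lineM A 0 = 1 := by
  ext i j
  fin_cases i <;> fin_cases j <;> simp [lineM]

theorem lineM_one (A : GL (Fin 2) ℂ) : lineM A 1 = (A : Matrix (Fin 2) (Fin 2) ℂ) := by
  ext i j
  fin_cases i <;> fin_cases j <;> simp [lineM]

theorem lineM_cont (A : GL (Fin 2) ℂ) (i j : Fin 2) : Continuous fun t => lineM A t i j := by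
  fin_cases i <;> fin_cases j <;> simp [lineM] <;> fun_prop

theorem mob_isotopic_aux {B : I → GL (Fin 2) ℂ} (hB : ∀ i j, Continuous fun t => (B t) i j)
    (A : GL (Fin 2) ℂ) (h0 : B 0 = 1) (h1 : B 1 = A) : IsotopicRel ∅ (mob A) := by
  have hcont : Continuous fun p : Sph × I => B p.2 • p.1 := by
    have h := continuous_smul_family B hB
    have h' : Continuous (Prod.swap : Sph × I → I × Sph) := continuous_swap
    have h'' := Continuous.comp h h'
    exact h''
  have hb : ∀ t, Function.Bijective fun z : Sph => B t • z := fun t => MulAction.bijective (B t)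
  have e0 : ∀ z : Sph, B 0 • z = z := fun z => by rw [h0, one_smul]
  have e1 : ∀ z : Sph, B 1 • z = mob A z := fun z => by rw [h1, mob_apply]
  have e2 : ∀ z ∈ (∅ : Set Sph), ∀ t : I, B t • z = z := fun z hz => absurd hz (Set.notMem_empty z)
  have key := isotopicRel_of_family (Q := ∅) (h := mob A) (fun p => B p.2 • p.1) hcont hb e0 e1 e2
  exact key

theorem mob_mem (A : GL (Fin 2) ℂ) : mob A ∈ HomeoPlus := by
  show IsotopicRel ∅ (mob A)
  set P : Polynomial ℂ := (1 + Polynomial.X * Polynomial.C (A 0 0 - 1)) *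
    (1 + Polynomial.X * Polynomial.C (A 1 1 - 1)) -
    (Polynomial.X * Polynomial.C (A 0 1)) * (Polynomial.X * Polynomial.C (A 1 0)) with hP
  have hev : ∀ t, P.eval t = (lineM A t).det := by
    intro t; rw [hP, lineM_det]; simp; ring
  obtain ⟨γ, hγ, g0, g1, hne⟩ := exists_path P (by rw [hev, lineM_zero]; simp)
    (by rw [hev, lineM_one]; exact A.det_ne_zero)
  have hdet : ∀ t, (lineM A (γ t)).det ≠ 0 := fun t => by rw [← hev]; exact hne t
  have b1 : ∀ i j, Continuous fun t : I =>
      (Matrix.GeneralLinearGroup.mkOfDetNeZero (lineM A (γ t)) (hdet t)) i j := by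
    intro i j
    simp only [mk_apply]
    exact (lineM_cont A i j).comp hγ
  have b2 : Matrix.GeneralLinearGroup.mkOfDetNeZero (lineM A (γ 0)) (hdet 0) = 1 := by
    apply Units.ext
    show lineM A (γ 0) = 1
    rw [g0, lineM_zero]
  have b3 : Matrix.GeneralLinearGroup.mkOfDetNeZero (lineM A (γ 1)) (hdet 1) = A := by
    apply Units.ext
    show lineM A (γ 1) = A
    rw [g1, lineM_one]
  exact mob_isotopic_aux b1 A b2 b3

end Pool.Agent.TH546.M2
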