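import Pool.Agent.TH546.M2.Alg

/-! The normalised tuples map properly onto the affine variety `V`. -/

set_option autoImplicit false

open Topology

namespace Pool.Agent.TH546.M2

/-- the affine variety `a c = b ^ 2`, `c ≠ 4 u ^ 3` in `ℂ ^ 4` -/
def V : Set (ℂ × ℂ × ℂ × ℂ) := {p | p.2.1 * p.2.2.2 = p.2.2.1 ^ 2 ∧ p.2.2.2 ≠ 4 * p.1 ^ 3}

/-- the polynomial version of `F` -/
def G (w : Fin 4 → ℂ) : ℂ × ℂ × ℂ × ℂ := (II w, e2 w ^ 2, e2 w * JJ w, JJ w ^ 2)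

theorem F_eq_G {w : Fin 4 → ℂ} (h : e4 w = 1) : F w = G w := by simp [F, G, h]

theorem continuous_e1 : Continuous e1 := by unfold e1; fun_prop
theorem continuous_e2 : Continuous e2 := by unfold e2; fun_prop
theorem continuous_e3 : Continuous e3 := by unfold e3; fun_prop
theorem continuous_e4 : Continuous e4 := by unfold e4; fun_prop
theorem continuous_II : Continuous II := by
  have := continuous_e1; have := continuous_e2; have := continuous_e3; have := continuous_e4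
  unfold II; fun_prop
theorem continuous_JJ : Continuous JJ := by
  have := continuous_e1; have := continuous_e2; have := continuous_e3; have := continuous_e4
  unfold JJ; fun_prop
theorem continuous_G : Continuous G := by
  have := continuous_e2; have := continuous_II; have := continuous_JJ
  unfold G; fun_prop

theorem norm_le_of_sq {z : ℂ} {M : ℝ} (hM : 0 ≤ M) (h : ‖z ^ 2‖ ≤ M) : ‖z‖ ≤ M + 1 := by
  rw [norm_pow] at h
  nlinarith [norm_nonneg z]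

theorem norm_root_le {a b c d z : ℂ} (h : z ^ 4 - a * z ^ 3 + b * z ^ 2 - c * z + d = 0) :
    ‖z‖ ≤ ‖a‖ + ‖b‖ + ‖c‖ + ‖d‖ + 1 := by
  have ha := norm_nonneg a
  have hb := norm_nonneg b
  have hc := norm_nonneg c
  have hd := norm_nonneg d
  rcases le_or_gt ‖z‖ 1 with h1 | h1
  · linarith
  · have h2 : z ^ 4 = a * z ^ 3 - b * z ^ 2 + c * z - d := by linear_combination h
    have h3 : ‖z‖ ^ 4 ≤ ‖a‖ * ‖z‖ ^ 3 + ‖b‖ * ‖z‖ ^ 2 + ‖c‖ * ‖z‖ + ‖d‖ := by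
      rw [← norm_pow, h2]
      calc ‖a * z ^ 3 - b * z ^ 2 + c * z - d‖
          ≤ ‖a * z ^ 3 - b * z ^ 2 + c * z‖ + ‖d‖ := norm_sub_le _ _
        _ ≤ (‖a * z ^ 3 - b * z ^ 2‖ + ‖c * z‖) + ‖d‖ := by gcongr; exact norm_add_le _ _
        _ ≤ ((‖a * z ^ 3‖ + ‖b * z ^ 2‖) + ‖c * z‖) + ‖d‖ := by gcongr; exact norm_sub_le _ _
        _ = _ := by simp only [norm_mul, norm_pow]
    have h4 : ‖z‖ ^ 2 ≤ ‖z‖ ^ 3 := by
      nlinarith [sq_nonneg ‖z‖]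
    have h5 : ‖z‖ ≤ ‖z‖ ^ 3 := by nlinarith [sq_nonneg ‖z‖]
    have h6 : 1 ≤ ‖z‖ ^ 3 := by nlinarith
    have h7 : ‖z‖ * ‖z‖ ^ 3 ≤ (‖a‖ + ‖b‖ + ‖c‖ + ‖d‖) * ‖z‖ ^ 3 := by
      calc ‖z‖ * ‖z‖ ^ 3 = ‖z‖ ^ 4 := by ring
        _ ≤ ‖a‖ * ‖z‖ ^ 3 + ‖b‖ * ‖z‖ ^ 2 + ‖c‖ * ‖z‖ + ‖d‖ := h3
        _ ≤ ‖a‖ * ‖z‖ ^ 3 + ‖b‖ * ‖z‖ ^ 3 + ‖c‖ * ‖z‖ ^ 3 + ‖d‖ * ‖z‖ ^ 3 := by
            gcongr
            nlinarith
        _ = _ := by ring
    have h8 : ‖z‖ ≤ ‖a‖ + ‖b‖ + ‖c‖ + ‖d‖ := le_of_mul_le_mul_right h7 (by linarith)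
    linarith

theorem bounded_roots (M : ℝ) (hM : 0 ≤ M) : ∃ B : ℝ, ∀ w : Fin 4 → ℂ, e4 w = 1 →
    ‖II w‖ ≤ M → ‖e2 w ^ 2‖ ≤ M → ‖JJ w ^ 2‖ ≤ M → ∀ i, ‖w i‖ ≤ B := by
  set K : ℝ := 72 * (M + 1) + 9 * (M + 1) * (12 + M + M) + 2 * (M + 1) ^ 3 + (M + 1) with hK
  have hK0 : 0 ≤ K := by positivity
  refine ⟨(K + 2 * (12 + M + M) + 1) + (M + 1) + (K + 2 * (12 + M + M) + 1) + 1 + 1,
    fun w h4 hI h2 hJ i => ?_⟩
  have h2' : ‖e2 w‖ ≤ M + 1 := norm_le_of_sq hM h2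
  have hJ' : ‖JJ w‖ ≤ M + 1 := norm_le_of_sq hM hJ
  have hp : e1 w * e3 w = (12 + e2 w ^ 2 - II w) / 3 := by
    simp only [II, h4]; ring
  have hp' : ‖e1 w * e3 w‖ ≤ 12 + M + M := by
    rw [hp, norm_div]
    have : ‖12 + e2 w ^ 2 - II w‖ ≤ 12 + M + M := by
      calc ‖12 + e2 w ^ 2 - II w‖ ≤ ‖12 + e2 w ^ 2‖ + ‖II w‖ := norm_sub_le _ _
        _ ≤ (‖(12 : ℂ)‖ + ‖e2 w ^ 2‖) + ‖II w‖ := by gcongr; exact norm_add_le _ _
        _ ≤ _ := by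
          rw [show ‖(12 : ℂ)‖ = 12 by norm_num]
          linarith
    have h3 : ‖(3 : ℂ)‖ = 3 := by norm_num
    rw [h3]
    have : 0 ≤ ‖12 + e2 w ^ 2 - II w‖ := norm_nonneg _
    linarith
  have hk : e1 w ^ 2 + e3 w ^ 2 =
      (72 * e2 w + 9 * e2 w * (e1 w * e3 w) - 2 * e2 w ^ 3 - JJ w) / 27 := by
    simp only [JJ, h4]; ring
  have hk' : ‖e1 w ^ 2 + e3 w ^ 2‖ ≤ K := by
    rw [hk, norm_div]
    have : ‖72 * e2 w + 9 * e2 w * (e1 w * e3 w) - 2 * e2 w ^ 3 - JJ w‖ ≤ K := by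
      calc ‖72 * e2 w + 9 * e2 w * (e1 w * e3 w) - 2 * e2 w ^ 3 - JJ w‖
          ≤ ‖72 * e2 w + 9 * e2 w * (e1 w * e3 w) - 2 * e2 w ^ 3‖ + ‖JJ w‖ := norm_sub_le _ _
        _ ≤ (‖72 * e2 w + 9 * e2 w * (e1 w * e3 w)‖ + ‖2 * e2 w ^ 3‖) + ‖JJ w‖ := by
          gcongr; exact norm_sub_le _ _
        _ ≤ ((‖72 * e2 w‖ + ‖9 * e2 w * (e1 w * e3 w)‖) + ‖2 * e2 w ^ 3‖) + ‖JJ w‖ := by
          gcongr; exact norm_add_le _ _
        _ = 72 * ‖e2 w‖ + 9 * ‖e2 w‖ * ‖e1 w * e3 w‖ + 2 * ‖e2 w‖ ^ 3 + ‖JJ w‖ := by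
          simp only [norm_mul, norm_pow]
          norm_num
        _ ≤ 72 * (M + 1) + 9 * (M + 1) * (12 + M + M) + 2 * (M + 1) ^ 3 + (M + 1) := by
          gcongr
        _ = K := rfl
    have h27 : ‖(27 : ℂ)‖ = 27 := by norm_num
    rw [h27]
    have : 0 ≤ ‖72 * e2 w + 9 * e2 w * (e1 w * e3 w) - 2 * e2 w ^ 3 - JJ w‖ := norm_nonneg _
    linarith
  have hs : ‖e1 w + e3 w‖ ≤ (K + 2 * (12 + M + M)) + 1 := by
    refine norm_le_of_sq (by positivity) ?_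
    calc ‖(e1 w + e3 w) ^ 2‖ = ‖(e1 w ^ 2 + e3 w ^ 2) + 2 * (e1 w * e3 w)‖ := by congr 1; ring
      _ ≤ ‖e1 w ^ 2 + e3 w ^ 2‖ + ‖2 * (e1 w * e3 w)‖ := norm_add_le _ _
      _ = ‖e1 w ^ 2 + e3 w ^ 2‖ + 2 * ‖e1 w * e3 w‖ := by rw [norm_mul 2]; norm_num
      _ ≤ _ := by linarith
  have hd : ‖e1 w - e3 w‖ ≤ (K + 2 * (12 + M + M)) + 1 := by
    refine norm_le_of_sq (by positivity) ?_
    calc ‖(e1 w - e3 w) ^ 2‖ = ‖(e1 w ^ 2 + e3 w ^ 2) - 2 * (e1 w * e3 w)‖ := by congr 1; ring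
      _ ≤ ‖e1 w ^ 2 + e3 w ^ 2‖ + ‖2 * (e1 w * e3 w)‖ := norm_sub_le _ _
      _ = ‖e1 w ^ 2 + e3 w ^ 2‖ + 2 * ‖e1 w * e3 w‖ := by rw [norm_mul 2]; norm_num
      _ ≤ _ := by linarith
  have h1 : ‖e1 w‖ ≤ K + 2 * (12 + M + M) + 1 := by
    have : e1 w = ((e1 w + e3 w) + (e1 w - e3 w)) / 2 := by ring
    rw [this, norm_div]
    have h3 : ‖(2 : ℂ)‖ = 2 := by norm_num
    rw [h3]
    have := norm_add_le (e1 w + e3 w) (e1 w - e3 w)
    linarith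
  have h3 : ‖e3 w‖ ≤ K + 2 * (12 + M + M) + 1 := by
    have : e3 w = ((e1 w + e3 w) - (e1 w - e3 w)) / 2 := by ring
    rw [this, norm_div]
    have h3 : ‖(2 : ℂ)‖ = 2 := by norm_num
    rw [h3]
    have := norm_sub_le (e1 w + e3 w) (e1 w - e3 w)
    linarith
  have hroot : w i ^ 4 - e1 w * w i ^ 3 + e2 w * w i ^ 2 - e3 w * w i + e4 w = 0 := by
    rw [← prod_sub]
    exact Finset.prod_eq_zero (Finset.mem_univ i) (sub_self _)
  have := norm_root_le hroot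
  rw [h4, norm_one] at this
  linarith

/-- tuples with product one -/
def Nbar : Set (Fin 4 → ℂ) := {w | e4 w = 1}

theorem Nbar_closed : IsClosed Nbar := isClosed_eq continuous_e4 continuous_const

theorem proper_G : IsProperMap (fun w : Nbar => G w.1) := by
  rw [isProperMap_iff_isCompact_preimage]
  refine ⟨continuous_G.comp continuous_subtype_val, fun K hK => ?_⟩
  rw [Topology.IsInducing.subtypeVal.isCompact_iff]
  obtain ⟨M, hM⟩ := hK.isBounded.exists_norm_le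
  have hM0 : ∀ p ∈ K, ‖p‖ ≤ max M 0 := fun p hp => (hM p hp).trans (le_max_left _ _)
  obtain ⟨B, hB⟩ := bounded_roots (max M 0) (le_max_right _ _)
  have hsub : (Subtype.val '' ((fun w : Nbar => G w.1) ⁻¹' K) : Set (Fin 4 → ℂ)) =
      Nbar ∩ G ⁻¹' K := by
    ext w
    constructor
    · rintro ⟨v, hv, rfl⟩
      exact ⟨v.2, hv⟩
    · rintro ⟨h1, h2⟩
      exact ⟨⟨w, h1⟩, h2, rfl⟩
  rw [hsub]
  refine Metric.isCompact_of_isClosed_isBounded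
    (Nbar_closed.inter (hK.isClosed.preimage continuous_G)) ?_
  rw [isBounded_iff_forall_norm_le]
  refine ⟨max B 0, fun w hw => ?_⟩
  rw [pi_norm_le_iff_of_nonneg (le_max_right _ _)]
  intro i
  have h := hM0 _ hw.2
  simp only [G, Prod.norm_def, sup_le_iff] at h
  exact (hB w hw.1 h.1 h.2.1 h.2.2.2 i).trans (le_max_left _ _)

theorem G_mem_V {w : Fin 4 → ℂ} : G w ∈ V ↔ Function.Injective w := by
  rw [← disc_ne]
  constructor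
  · intro h; exact h.2
  · intro h
    refine ⟨?_, h⟩
    simp only [G]
    ring

/-- normalised tuples of distinct numbers -/
abbrev NN : Type := ((fun w : Nbar => G w.1) ⁻¹' V : Set Nbar)

theorem NN.e4 (w : NN) : e4 w.1.1 = 1 := w.1.2

theorem NN.inj (w : NN) : Function.Injective w.1.1 := G_mem_V.1 w.2

theorem NN.ne (w : NN) (i : Fin 4) : w.1.1 i ≠ 0 := by
  intro h
  have h4 := NN.e4 w
  simp only [M2.e4] at h4
  fin_cases i <;> simp_all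

/-- the map to `V` -/
def GN : NN → V := V.restrictPreimage (fun w : Nbar => G w.1)

theorem GN_val (w : NN) : (GN w : ℂ × ℂ × ℂ × ℂ) = F w.1.1 := (F_eq_G (NN.e4 w)).symm

theorem GN_surj : Function.Surjective GN := by
  rintro ⟨⟨u, a, b, c⟩, h1, h2⟩
  obtain ⟨w, h4, hF⟩ := F_surj (u := u) (a := a) (b := b) (c := c) h1
  rw [F_eq_G h4] at hF
  have hmem : G w ∈ V := by rw [hF]; exact ⟨h1, h2⟩
  exact ⟨⟨⟨w, h4⟩, hmem⟩, Subtype.ext hF⟩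

theorem GN_quotient : IsQuotientMap GN :=
  (proper_G.isClosedMap.restrictPreimage V).isQuotientMap
    ((proper_G.continuous).restrictPreimage) GN_surj

end Pool.Agent.TH546.M2
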