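import Pool.Agent.TH546.M2.Path

/-! Pushing finitely many points of the sphere. -/

set_option autoImplicit false

open Topology Filter OnePoint Matrix unitInterval

namespace Pool.Agent.TH546.M2

/-- a bump function -/
noncomputable def bump (r : ℝ) (z : ℂ) : ℝ := max 0 (1 - ‖z‖ / r)

theorem bump_cont (r : ℝ) : Continuous (bump r) := by unfold bump; fun_prop

theorem bump_zero (r : ℝ) : bump r 0 = 1 := by simp [bump]

theorem bump_far {r : ℝ} (hr : 0 < r) {z : ℂ} (hz : r ≤ ‖z‖) : bump r z = 0 := by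
  unfold bump
  rw [max_eq_left]
  have : 1 ≤ ‖z‖ / r := by rwa [one_le_div hr]
  linarith

theorem bump_lip {r : ℝ} (hr : 0 < r) (z z' : ℂ) : |bump r z - bump r z'| ≤ ‖z - z'‖ / r := by
  unfold bump
  have h1 := abs_max_sub_max_le_abs (1 - ‖z‖ / r) (1 - ‖z'‖ / r) 0
  rw [max_comm _ (0 : ℝ), max_comm _ (0 : ℝ)] at h1
  refine h1.trans ?_
  have h2 : (1 - ‖z‖ / r) - (1 - ‖z'‖ / r) = (‖z'‖ - ‖z‖) / r := by ring
  rw [h2, abs_div, abs_of_pos hr]
  gcongr
  rw [norm_sub_rev]
  exact abs_norm_sub_norm_le z' z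

/-- the perturbation -/
noncomputable def pert (a : Idx → ℂ) (r : ℝ) (y : Idx → ℂ) (z : ℂ) : ℂ :=
  ∑ i, (bump r (z - a i) : ℂ) * (y i - a i)

theorem pert_cont (a : Idx → ℂ) (r : ℝ) :
    Continuous fun p : ℂ × (Idx → ℂ) => pert a r p.2 p.1 := by
  have := bump_cont r
  unfold pert
  fun_prop

theorem pert_far {a : Idx → ℂ} {r : ℝ} (hr : 0 < r) (y : Idx → ℂ) {z : ℂ}
    (hz : ∀ i, r ≤ ‖z - a i‖) : pert a r y z = 0 := by
  unfold pert
  exact Finset.sum_eq_zero fun i _ => by rw [bump_far hr (hz i)]; simp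

theorem pert_at {a : Idx → ℂ} {r : ℝ} (hr : 0 < r) (ha : ∀ i j, i ≠ j → r ≤ ‖a i - a j‖)
    (y : Idx → ℂ) (i : Idx) : pert a r y (a i) = y i - a i := by
  unfold pert
  rw [Finset.sum_eq_single i]
  · rw [sub_self, bump_zero]; simp
  · intro j _ hj
    rw [bump_far hr (ha i j hj.symm)]; simp
  · intro h; exact absurd (Finset.mem_univ i) h

theorem pert_lip {a : Idx → ℂ} {r : ℝ} (hr : 0 < r) {y : Idx → ℂ}
    (hy : ∀ i, ‖y i - a i‖ ≤ r / 12) (z z' : ℂ) :
    ‖pert a r y z - pert a r y z'‖ ≤ (1 / 2) * ‖z - z'‖ := by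
  unfold pert
  rw [← Finset.sum_sub_distrib]
  refine (norm_sum_le _ _).trans ?_
  have h : ∀ i ∈ (Finset.univ : Finset Idx), ‖(bump r (z - a i) : ℂ) * (y i - a i) -
      (bump r (z' - a i) : ℂ) * (y i - a i)‖ ≤ (1 / 12) * ‖z - z'‖ := by
    intro i _
    rw [← sub_mul, norm_mul]
    have h1 : ‖((bump r (z - a i) : ℂ) - (bump r (z' - a i) : ℂ))‖ ≤ ‖z - z'‖ / r := by
      rw [← Complex.ofReal_sub, Complex.norm_real]
      have := bump_lip hr (z - a i) (z' - a i)
      rwa [sub_sub_sub_cancel_right] at this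
    calc _ ≤ (‖z - z'‖ / r) * (r / 12) := by
          gcongr
          exact hy i
      _ = (1 / 12) * ‖z - z'‖ := by field_simp
  refine (Finset.sum_le_sum h).trans ?_
  simp only [Finset.sum_const, Finset.card_univ, Fintype.card_sum, Fintype.card_fin, nsmul_eq_mul]
  push_cast
  linarith

theorem push_bij {a : Idx → ℂ} {r : ℝ} (hr : 0 < r) {y : Idx → ℂ}
    (hy : ∀ i, ‖y i - a i‖ ≤ r / 12) : Function.Bijective fun z : ℂ => z + pert a r y z := by
  constructor
  · intro z z' h
    simp only at h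
    have h1 := pert_lip hr hy z' z
    have h2 : z - z' = pert a r y z' - pert a r y z := by linear_combination h
    rw [← h2, norm_sub_rev z' z] at h1
    have h3 : ‖z - z'‖ = 0 := by
      have := norm_nonneg (z - z')
      linarith
    exact sub_eq_zero.1 (norm_eq_zero.1 h3)
  · intro w
    have hc : ContractingWith (1 / 2) fun z : ℂ => w - pert a r y z := by
      refine ⟨by norm_num, LipschitzWith.of_dist_le_mul fun z z' => ?_⟩
      rw [dist_eq_norm, dist_eq_norm]
      have : w - pert a r y z - (w - pert a r y z') = pert a r y z' - pert a r y z := by ring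
      rw [this, norm_sub_rev z z']
      have := pert_lip hr hy z' z
      simpa using this
    refine ⟨ContractingWith.fixedPoint _ hc, ?_⟩
    have := hc.fixedPoint_isFixedPt
    simp only [Function.IsFixedPt] at this
    simp only
    nth_rw 1 [← this]
    ring

/-- the push map on the sphere -/
noncomputable def Push (a : Idx → ℂ) (r : ℝ) (p : Sph × (Idx → ℂ)) : Sph :=
  p.1.elim ∞ fun z => ((z + pert a r p.2 z : ℂ) : OnePoint ℂ)

theorem Push_infty (a : Idx → ℂ) (r : ℝ) (y : Idx → ℂ) : Push a r (∞, y) = ∞ := rfl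
theorem Push_coe (a : Idx → ℂ) (r : ℝ) (y : Idx → ℂ) (z : ℂ) :
    Push a r ((z : OnePoint ℂ), y) = ((z + pert a r y z : ℂ) : OnePoint ℂ) := rfl

theorem Push_cont (a : Idx → ℂ) {r : ℝ} (hr : 0 < r) : Continuous (Push a r) := by
  rw [continuous_iff_continuousAt]
  rintro ⟨z, y⟩
  induction z using OnePoint.rec with
  | infty =>
    have h : Push a r =ᶠ[𝓝 (∞, y)] Prod.fst := by
      obtain ⟨R, hR⟩ := (Set.finite_range a).isBounded.exists_norm_le
      have h1 : {z : ℂ | R + r ≤ ‖z‖} ∈ cocompact ℂ := by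
        rw [← Metric.cobounded_eq_cocompact]
        exact (tendsto_norm_cobounded_atTop (E := ℂ)).eventually_ge_atTop (R + r)
      have h2 : {z : Sph | Push a r (z, y) = z ∧ ∀ y', Push a r (z, y') = z} ∈ 𝓝 (∞ : Sph) := by
        rw [OnePoint.nhds_infty_eq, mem_sup, mem_map, mem_pure, coclosedCompact_eq_cocompact]
        refine ⟨?_, rfl, fun _ => rfl⟩
        filter_upwards [h1] with z hz
        have h3 : ∀ y', pert a r y' z = 0 := fun y' => pert_far hr y' fun i => by
          have h4 := hR (a i) ⟨i, rfl⟩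
          have h5 := norm_sub_norm_le z (a i)
          have hz' : R + r ≤ ‖z‖ := hz
          linarith
        have h6 : ∀ y', Push a r ((z : OnePoint ℂ), y') = z := fun y' => by
          rw [Push_coe, h3, add_zero]
        exact ⟨h6 y, h6⟩
      rw [nhds_prod_eq]
      filter_upwards [prod_mem_prod h2 univ_mem] with p hp
      exact hp.1.2 p.2
    exact continuousAt_fst.congr h.symm
  | coe z =>
    have he : IsOpenEmbedding (Prod.map ((↑) : ℂ → OnePoint ℂ) (id : (Idx → ℂ) → (Idx → ℂ))) :=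
      OnePoint.isOpenEmbedding_coe.prodMap IsOpenEmbedding.id
    have h1 : ContinuousAt (Push a r ∘ Prod.map ((↑) : ℂ → OnePoint ℂ)
        (id : (Idx → ℂ) → (Idx → ℂ))) (z, y) := by
      have h2 : Push a r ∘ Prod.map ((↑) : ℂ → OnePoint ℂ) (id : (Idx → ℂ) → (Idx → ℂ)) =
          fun p => ((p.1 + pert a r p.2 p.1 : ℂ) : OnePoint ℂ) := by
        funext p; rfl
      rw [h2]
      have h3 := pert_cont a r
      exact (OnePoint.continuous_coe.comp (continuous_fst.add h3)).continuousAt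
    exact (he.continuousAt_iff).1 h1

theorem Push_bij {a : Idx → ℂ} {r : ℝ} (hr : 0 < r) {y : Idx → ℂ}
    (hy : ∀ i, ‖y i - a i‖ ≤ r / 12) : Function.Bijective fun z : Sph => Push a r (z, y) := by
  have hb := push_bij hr hy
  constructor
  · intro z z' h
    induction z using OnePoint.rec with
    | infty =>
      induction z' using OnePoint.rec with
      | infty => rfl
      | coe z' => simp only [Push_infty, Push_coe] at h; exact absurd h (OnePoint.infty_ne_coe _)
    | coe z =>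
      induction z' using OnePoint.rec with
      | infty => simp only [Push_infty, Push_coe] at h; exact absurd h (OnePoint.coe_ne_infty _)
      | coe z' =>
        simp only [Push_coe, OnePoint.coe_eq_coe] at h
        rw [hb.1 h]
  · intro w
    induction w using OnePoint.rec with
    | infty => exact ⟨∞, rfl⟩
    | coe w =>
      obtain ⟨z, hz⟩ := hb.2 w
      exact ⟨z, by simp only [Push_coe]; rw [← hz]⟩

theorem Push_base (a : Idx → ℂ) (r : ℝ) (z : Sph) : Push a r (z, a) = z := by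
  induction z using OnePoint.rec with
  | infty => rfl
  | coe z => rw [Push_coe]; simp [pert]

theorem Push_at {a : Idx → ℂ} {r : ℝ} (hr : 0 < r) (ha : ∀ i j, i ≠ j → r ≤ ‖a i - a j‖)
    (y : Idx → ℂ) (i : Idx) : Push a r ((a i : OnePoint ℂ), y) = (y i : OnePoint ℂ) := by
  rw [Push_coe, pert_at hr ha]; congr 1; ring

/-- the push homeomorphism -/
noncomputable def pushH {a : Idx → ℂ} {r : ℝ} (hr : 0 < r) {y : Idx → ℂ}
    (hy : ∀ i, ‖y i - a i‖ ≤ r / 12) : Sph ≃ₜ Sph :=
  Continuous.homeoOfEquivCompactToT2 (f := Equiv.ofBijective _ (Push_bij hr hy))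
    ((Push_cont a hr).comp (Continuous.prodMk_left y))

theorem pushH_apply {a : Idx → ℂ} {r : ℝ} (hr : 0 < r) {y : Idx → ℂ}
    (hy : ∀ i, ‖y i - a i‖ ≤ r / 12) (z : Sph) : pushH hr hy z = Push a r (z, y) := rfl

/-- the isotopy from the identity to the push map -/
noncomputable def pushI (a : Idx → ℂ) (r : ℝ) (y : Idx → ℂ) (p : Sph × I) : Sph :=
  Push a r (p.1, fun i => a i + ((p.2 : ℝ) : ℂ) * (y i - a i))

theorem pushI_cont (a : Idx → ℂ) {r : ℝ} (hr : 0 < r) (y : Idx → ℂ) :
    Continuous (pushI a r y) := by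
  have h0 : Continuous fun t : I => fun i : Idx => a i + ((t : ℝ) : ℂ) * (y i - a i) := by
    fun_prop
  have h2 : Continuous fun p : Sph × I => fun i : Idx => a i + ((p.2 : ℝ) : ℂ) * (y i - a i) :=
    Continuous.comp h0 continuous_snd
  have h3 : Continuous fun p : Sph × I =>
      ((p.1, fun i : Idx => a i + ((p.2 : ℝ) : ℂ) * (y i - a i)) : Sph × (Idx → ℂ)) :=
    Continuous.prodMk continuous_fst h2
  exact Continuous.comp (Push_cont a hr) h3

theorem pushI_bij {a : Idx → ℂ} {r : ℝ} (hr : 0 < r) {y : Idx → ℂ}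
    (hy : ∀ i, ‖y i - a i‖ ≤ r / 12) (t : I) :
    Function.Bijective fun z : Sph => pushI a r y (z, t) := by
  have e : (fun z : Sph => pushI a r y (z, t)) =
      fun z : Sph => Push a r (z, fun i : Idx => a i + ((t : ℝ) : ℂ) * (y i - a i)) := rfl
  rw [e]
  apply Push_bij (a := a) (r := r) (y := fun i : Idx => a i + ((t : ℝ) : ℂ) * (y i - a i)) hr
  intro i
  have h1 : a i + ((t : ℝ) : ℂ) * (y i - a i) - a i = ((t : ℝ) : ℂ) * (y i - a i) := by ring
  rw [h1, norm_mul, Complex.norm_real, Real.norm_eq_abs, abs_of_nonneg t.2.1]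
  have h2 := hy i
  have h3 := norm_nonneg (y i - a i)
  nlinarith [t.2.2]

theorem pushI_zero (a : Idx → ℂ) (r : ℝ) (y : Idx → ℂ) (z : Sph) : pushI a r y (z, 0) = z := by
  have h : (fun i : Idx => a i + (((0 : I) : ℝ) : ℂ) * (y i - a i)) = a := by
    funext i; simp
  show Push a r (z, fun i : Idx => a i + (((0 : I) : ℝ) : ℂ) * (y i - a i)) = z
  rw [h, Push_base]

theorem pushI_one (a : Idx → ℂ) (r : ℝ) (y : Idx → ℂ) (z : Sph) :
    pushI a r y (z, 1) = Push a r (z, y) := by
  have h : (fun i : Idx => a i + (((1 : I) : ℝ) : ℂ) * (y i - a i)) = y := by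
    funext i; simp
  show Push a r (z, fun i : Idx => a i + (((1 : I) : ℝ) : ℂ) * (y i - a i)) = _
  rw [h]

theorem pushH_mem {a : Idx → ℂ} {r : ℝ} (hr : 0 < r) {y : Idx → ℂ}
    (hy : ∀ i, ‖y i - a i‖ ≤ r / 12) : pushH hr hy ∈ HomeoPlus :=
  isotopicRel_of_family (Q := ∅) (h := pushH hr hy) (pushI a r y) (pushI_cont a hr y)
    (pushI_bij hr hy) (pushI_zero a r y) (pushI_one a r y)
    (fun z hz => absurd hz (Set.notMem_empty z))

end Pool.Agent.TH546.M2
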