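import Pool.Agent.TH546.M2.Prp

/-! The Riemann sphere `OnePoint ℂ`, homogeneous coordinates, Moebius maps. -/

set_option autoImplicit false

open Topology Filter OnePoint Matrix

namespace Pool.Agent.TH546.M2

/-- nonzero vectors of `ℂ ^ 2` -/
abbrev Vec : Type := {v : ℂ × ℂ // v ≠ 0}

/-- the determinant of two vectors -/
def br (v w : ℂ × ℂ) : ℂ := v.1 * w.2 - v.2 * w.1

/-- the point of the sphere with given homogeneous coordinates -/
noncomputable def hp (v : Vec) : OnePoint ℂ :=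
  if v.1.2 = 0 then ∞ else ((v.1.1 / v.1.2 : ℂ) : OnePoint ℂ)

theorem hp_zero {v : Vec} (h : v.1.2 = 0) : hp v = ∞ := if_pos h
theorem hp_ne {v : Vec} (h : v.1.2 ≠ 0) : hp v = ((v.1.1 / v.1.2 : ℂ) : OnePoint ℂ) := if_neg h

/-- a section of `hp` -/
noncomputable def sec (z : OnePoint ℂ) : Vec :=
  z.elim ⟨(1, 0), by simp⟩ (fun z => ⟨(z, 1), by simp⟩)

theorem sec_infty : sec ∞ = ⟨(1, 0), by simp⟩ := rfl
theorem sec_coe (z : ℂ) : sec (z : OnePoint ℂ) = ⟨(z, 1), by simp⟩ := rfl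

theorem hp_sec (z : OnePoint ℂ) : hp (sec z) = z := by
  induction z using OnePoint.rec with
  | infty => rw [sec_infty, hp_zero rfl]
  | coe z => rw [sec_coe, hp_ne (by simp)]; simp

theorem hp_surj : Function.Surjective hp := fun z => ⟨sec z, hp_sec z⟩

theorem vec_ne (v : Vec) : v.1.1 ≠ 0 ∨ v.1.2 ≠ 0 := by
  by_contra h
  push Not at h
  exact v.2 (Prod.ext h.1 h.2)

theorem hp_eq_iff (v w : Vec) : hp v = hp w ↔ br v.1 w.1 = 0 := by
  unfold br
  rcases eq_or_ne v.1.2 0 with hv | hv <;> rcases eq_or_ne w.1.2 0 with hw | hw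
  · rw [hp_zero hv, hp_zero hw, hv, hw]; simp
  · rw [hp_zero hv, hp_ne hw, hv]
    have h1 := (vec_ne v).resolve_right (by rw [hv]; simp)
    simp [hw, h1]
  · rw [hp_ne hv, hp_zero hw, hw]
    have h1 := (vec_ne w).resolve_right (by rw [hw]; simp)
    simp [hv, h1]
  · rw [hp_ne hv, hp_ne hw, OnePoint.coe_eq_coe, div_eq_div_iff hv hw]
    constructor
    · intro h; linear_combination h
    · intro h; linear_combination h

/-- equal points: proportional coordinates -/
theorem exists_scale {v w : Vec} (h : hp v = hp w) : ∃ c : ℂ, c ≠ 0 ∧ w.1 = (c * v.1.1, c * v.1.2) := by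
  rw [hp_eq_iff] at h
  unfold br at h
  rcases eq_or_ne v.1.2 0 with hv | hv
  · have h1 := (vec_ne v).resolve_right (by rw [hv]; simp)
    have h2 : w.1.2 = 0 := by
      rw [hv] at h
      have : v.1.1 * w.1.2 = 0 := by linear_combination h
      exact (mul_eq_zero.1 this).resolve_left h1
    have h3 := (vec_ne w).resolve_right (by rw [h2]; simp)
    exact ⟨w.1.1 / v.1.1, div_ne_zero h3 h1, Prod.ext (by simp; field_simp) (by simp [hv, h2])⟩
  · have h2 : w.1.2 ≠ 0 := by
      intro h2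
      rw [h2] at h
      have : v.1.2 * w.1.1 = 0 := by linear_combination -h
      have := (mul_eq_zero.1 this).resolve_left hv
      exact w.2 (Prod.ext this h2)
    refine ⟨w.1.2 / v.1.2, div_ne_zero h2 hv, Prod.ext ?_ (by simp; field_simp)⟩
    simp only
    field_simp
    linear_combination -h

/-- the local section near a point other than `∞` -/
theorem hp_open_aux1 (v : Vec) (hv : v.1.2 ≠ 0) (U : Set Vec) (hU : U ∈ 𝓝 v) :
    hp '' U ∈ 𝓝 (hp v) := by
  have hne : ∀ z : ℂ, ((z * v.1.2, v.1.2) : ℂ × ℂ) ≠ 0 := fun z h => hv (by simpa using congrArg Prod.snd h)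
  set f : ℂ → Vec := fun z => ⟨(z * v.1.2, v.1.2), hne z⟩ with hf
  have hc : Continuous f := by rw [hf]; fun_prop
  have h0 : f (v.1.1 / v.1.2) = v := by
    apply Subtype.ext
    simp only [hf]
    rw [div_mul_cancel₀ _ hv]
  have h1 : f ⁻¹' U ∈ 𝓝 (v.1.1 / v.1.2) := hc.continuousAt.preimage_mem_nhds (by rw [h0]; exact hU)
  rw [hp_ne hv, OnePoint.nhds_coe_eq]
  refine mem_map.2 (mem_of_superset h1 fun z hz => ?_)
  refine ⟨f z, hz, ?_⟩
  rw [hp_ne (show (f z).1.2 ≠ 0 from hv)]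
  simp only [hf]
  rw [mul_div_cancel_right₀ _ hv]

theorem tendsto_inv_coclosed : Tendsto (fun z : ℂ => z⁻¹) (coclosedCompact ℂ) (𝓝 0) := by
  rw [coclosedCompact_eq_cocompact]
  exact tendsto_inv₀_cobounded.mono_left (Metric.cobounded_eq_cocompact.symm.le)

theorem hp_open_aux2 (v : Vec) (hv : v.1.2 = 0) (U : Set Vec) (hU : U ∈ 𝓝 v) :
    hp '' U ∈ 𝓝 (hp v) := by
  have h1 := (vec_ne v).resolve_right (by rw [hv]; simp)
  have hne : ∀ z : ℂ, ((v.1.1, z * v.1.1) : ℂ × ℂ) ≠ 0 := fun z h => h1 (by simpa using congrArg Prod.fst h)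
  set f : ℂ → Vec := fun z => ⟨(v.1.1, z * v.1.1), hne z⟩ with hf
  have hc : Continuous f := by rw [hf]; fun_prop
  have h0 : f 0 = v := by
    apply Subtype.ext
    simp only [hf, zero_mul]
    exact Prod.ext rfl hv.symm
  have hU' : f ⁻¹' U ∈ 𝓝 (0 : ℂ) := hc.continuousAt.preimage_mem_nhds (by rw [h0]; exact hU)
  rw [hp_zero hv, OnePoint.nhds_infty_eq]
  refine mem_sup.2 ⟨?_, ?_⟩
  · have h2 := tendsto_inv_coclosed hU'
    have h3 : {z : ℂ | z ≠ 0} ∈ coclosedCompact ℂ := by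
      rw [coclosedCompact_eq_cocompact]
      have := (isCompact_singleton (x := (0 : ℂ))).compl_mem_cocompact
      exact this
    refine mem_map.2 ?_
    filter_upwards [h2, h3] with z hz hz0
    refine ⟨f z⁻¹, hz, ?_⟩
    have h4 : (f z⁻¹).1.2 ≠ 0 := mul_ne_zero (inv_ne_zero hz0) h1
    rw [hp_ne h4]
    congr 1
    simp only [hf]
    field_simp
  · rw [mem_pure]
    refine ⟨v, mem_of_mem_nhds hU, hp_zero hv⟩

theorem hp_open : IsOpenMap hp := by
  rw [isOpenMap_iff_nhds_le]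
  intro v
  rw [le_map_iff]
  intro U hU
  rcases eq_or_ne v.1.2 0 with hv | hv
  · exact hp_open_aux2 v hv U hU
  · exact hp_open_aux1 v hv U hU

theorem hp_cont : Continuous hp := by
  rw [continuous_iff_continuousAt]
  intro v
  rcases eq_or_ne v.1.2 0 with hv | hv
  · have h1 := (vec_ne v).resolve_right (by rw [hv]; simp)
    rw [ContinuousAt, hp_zero hv]
    rw [OnePoint.nhds_infty_eq, tendsto_def]
    intro s hs
    rw [mem_sup, mem_map, mem_pure] at hs
    obtain ⟨hs1, hs2⟩ := hs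
    rw [coclosedCompact_eq_cocompact, ← Metric.cobounded_eq_cocompact] at hs1
    have h2 := Filter.tendsto_inv₀_nhdsNE_zero (α := ℂ) hs1
    rw [mem_map, mem_nhdsWithin_iff_eventually] at h2
    have h3 : Tendsto (fun w : Vec => w.1.2 / w.1.1) (𝓝 v) (𝓝 0) := by
      have : ContinuousAt (fun w : Vec => w.1.2 / w.1.1) v := by
        refine ContinuousAt.div ?_ ?_ h1
        · fun_prop
        · fun_prop
      have h4 := this.tendsto
      simp only [hv, zero_div] at h4
      exact h4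
    have h5 : ∀ᶠ w : Vec in 𝓝 v, w.1.1 ≠ 0 := by
      have : Continuous fun w : Vec => w.1.1 := by fun_prop
      exact this.continuousAt.eventually_ne h1
    rw [← mem_map, mem_map']
    filter_upwards [h3.eventually h2, h5] with w hw hw1
    rcases eq_or_ne w.1.2 0 with h0 | h0
    · show hp w ∈ s
      rw [hp_zero h0]; exact hs2
    · have := hw (div_ne_zero h0 hw1)
      show hp w ∈ s
      rw [hp_ne h0]
      rw [Set.mem_preimage, Set.mem_preimage, inv_div] at this
      exact this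
  · have h2 : ∀ᶠ w : Vec in 𝓝 v, w.1.2 ≠ 0 := by
      have : Continuous fun w : Vec => w.1.2 := by fun_prop
      exact this.continuousAt.eventually_ne hv
    have h3 : hp =ᶠ[𝓝 v] fun w => ((w.1.1 / w.1.2 : ℂ) : OnePoint ℂ) := by
      filter_upwards [h2] with w hw
      exact hp_ne hw
    refine ContinuousAt.congr ?_ h3.symm
    refine OnePoint.continuous_coe.continuousAt.comp ?_
    refine ContinuousAt.div ?_ ?_ hv
    · fun_prop
    · fun_prop

theorem hp_quot : IsOpenQuotientMap hp := ⟨hp_surj, hp_cont, hp_open⟩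

/-- the action of `GL_2` on nonzero vectors -/
def actV (A : GL (Fin 2) ℂ) (v : ℂ × ℂ) : ℂ × ℂ :=
  (A 0 0 * v.1 + A 0 1 * v.2, A 1 0 * v.1 + A 1 1 * v.2)

theorem det_ne (A : GL (Fin 2) ℂ) : A 0 0 * A 1 1 - A 0 1 * A 1 0 ≠ 0 := by
  have := A.det_ne_zero
  rwa [Matrix.det_fin_two] at this

theorem actV_ne (A : GL (Fin 2) ℂ) (v : Vec) : actV A v.1 ≠ 0 := by
  intro h
  have h1 : A 0 0 * v.1.1 + A 0 1 * v.1.2 = 0 := congrArg Prod.fst h
  have h2 : A 1 0 * v.1.1 + A 1 1 * v.1.2 = 0 := congrArg Prod.snd h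
  have hd := det_ne A
  apply v.2
  have e1 : (A 0 0 * A 1 1 - A 0 1 * A 1 0) * v.1.1 = 0 := by
    linear_combination A 1 1 * h1 - A 0 1 * h2
  have e2 : (A 0 0 * A 1 1 - A 0 1 * A 1 0) * v.1.2 = 0 := by
    linear_combination A 0 0 * h2 - A 1 0 * h1
  exact Prod.ext ((mul_eq_zero.1 e1).resolve_left hd) ((mul_eq_zero.1 e2).resolve_left hd)

/-- the action of `GL_2` on nonzero vectors -/
def act (A : GL (Fin 2) ℂ) (v : Vec) : Vec := ⟨actV A v.1, actV_ne A v⟩

theorem smul_hp (A : GL (Fin 2) ℂ) (v : Vec) : A • hp v = hp (act A v) := by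
  rcases eq_or_ne v.1.2 0 with hv | hv
  · have h1 := (vec_ne v).resolve_right (by rw [hv]; simp)
    rw [hp_zero hv, OnePoint.smul_infty_eq_ite]
    by_cases h : A 1 0 = 0
    · rw [if_pos h, hp_zero]
      simp [act, actV, h, hv]
    · rw [if_neg h, hp_ne]
      · simp only [act, actV, hv, mul_zero, add_zero]
        rw [mul_div_mul_right _ _ h1]
      · simp only [act, actV, hv, mul_zero, add_zero]
        exact mul_ne_zero h h1
  · rw [hp_ne hv, OnePoint.smul_some_eq_ite]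
    have key : A 1 0 * (v.1.1 / v.1.2) + A 1 1 = (A 1 0 * v.1.1 + A 1 1 * v.1.2) / v.1.2 := by
      field_simp
    have key2 : A 0 0 * (v.1.1 / v.1.2) + A 0 1 = (A 0 0 * v.1.1 + A 0 1 * v.1.2) / v.1.2 := by
      field_simp
    by_cases h : A 1 0 * v.1.1 + A 1 1 * v.1.2 = 0
    · rw [if_pos (by rw [key, h, zero_div]), hp_zero]
      exact h
    · rw [if_neg (by rw [key]; exact div_ne_zero h hv), hp_ne (by exact h), key, key2,
        div_div_div_cancel_right₀ hv]
      rfl

theorem br_act (A : GL (Fin 2) ℂ) (v w : ℂ × ℂ) :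
    br (actV A v) (actV A w) = (A 0 0 * A 1 1 - A 0 1 * A 1 0) * br v w := by
  simp only [br, actV]; ring

end Pool.Agent.TH546.M2
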