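import Pool.Agent.TH546.M2.Push

/-! The orientation-preserving homeomorphisms act transitively on configurations, with an open
orbit map. -/

set_option autoImplicit false

open Topology Filter OnePoint Matrix unitInterval

namespace Pool.Agent.TH546.M2

/-- forgetting to continuous maps -/
noncomputable def toC (h : HomeoPlus) : C(Sph, Sph) := ⟨h.1, h.1.continuous⟩

theorem toC_inducing : IsInducing toC := ⟨rfl⟩

theorem toC_apply (h : HomeoPlus) (z : Sph) : toC h z = h.1 z := rfl

/-- a finite configuration after a Moebius map -/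
theorem exists_finite (x : Idx → Sph) : ∃ A : GL (Fin 2) ℂ, ∃ a : Idx → ℂ,
    ∀ i, A • x i = (a i : OnePoint ℂ) := by
  obtain ⟨c, hc⟩ : ∃ c : ℂ, ∀ i, x i ≠ (c : OnePoint ℂ) := by
    by_contra h
    push Not at h
    have h1 : Function.Injective fun c : ℂ => (h c).choose := by
      intro c c' hcc
      have e1 := (h c).choose_spec
      have e2 := (h c').choose_spec
      simp only at hcc
      rw [hcc, e2] at e1
      exact (OnePoint.coe_injective e1).symm
    exact not_injective_infinite_finite _ h1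
  set A : GL (Fin 2) ℂ := Matrix.GeneralLinearGroup.mkOfDetNeZero !![0, 1; 1, -c]
    (by rw [Matrix.det_fin_two_of]; simp) with hA
  refine ⟨A, fun i => (A • x i).elim 0 id, fun i => ?_⟩
  have hne : A • x i ≠ ∞ := by
    intro h
    apply hc i
    have h1 : A • ((c : ℂ) : OnePoint ℂ) = ∞ := by
      rw [OnePoint.smul_some_eq_ite]
      simp [hA, Matrix.GeneralLinearGroup.mkOfDetNeZero]
    exact MulAction.injective A (h.trans h1.symm)
  obtain ⟨z, hz⟩ := OnePoint.ne_infty_iff_exists.1 hne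
  simp only
  rw [← hz]
  rfl

theorem exists_sep {a : Idx → ℂ} (ha : Function.Injective a) :
    ∃ r : ℝ, 0 < r ∧ ∀ i j, i ≠ j → r ≤ ‖a i - a j‖ := by
  obtain ⟨r, hr, h⟩ : ∃ r : ℝ, 0 < r ∧ ∀ p : {p : Idx × Idx // p.1 ≠ p.2},
      r ≤ ‖a p.1.1 - a p.1.2‖ := by
    have hne : Nonempty {p : Idx × Idx // p.1 ≠ p.2} :=
      ⟨⟨(Sum.inl 0, Sum.inl 1), by simp⟩⟩
    obtain ⟨p, hp⟩ := Finite.exists_min fun p : {p : Idx × Idx // p.1 ≠ p.2} =>
      ‖a p.1.1 - a p.1.2‖
    refine ⟨‖a p.1.1 - a p.1.2‖, ?_, hp⟩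
    rw [norm_pos_iff, sub_ne_zero]
    exact fun h => p.2 (ha h)
  exact ⟨r, hr, fun i j hij => h ⟨(i, j), hij⟩⟩

/-- Every neighbourhood of the identity moves a configuration onto a neighbourhood of it. -/
theorem micro {x : Idx → Sph} (hx : x ∈ Conf) {U : Set HomeoPlus} (hU : U ∈ 𝓝 (1 : HomeoPlus)) :
    {y : Idx → Sph | ∃ k ∈ U, ∀ i, y i = k.1 (x i)} ∈ 𝓝 x := by
  obtain ⟨A, a, ha⟩ := exists_finite x
  have hai : Function.Injective a := by
    intro i j hij
    apply hx
    apply MulAction.injective A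
    show A • x i = A • x j
    rw [ha, ha, hij]
  obtain ⟨r, hr, hsep⟩ := exists_sep hai
  -- the parameter space
  set D : Set (Idx → ℂ) := {y | ∀ i, ‖y i - a i‖ < r / 12} with hD
  have hDo : IsOpen D := by
    have : D = ⋂ i, {y | ‖y i - a i‖ < r / 12} := by ext y; simp [hD]
    rw [this]
    refine isOpen_iInter_of_finite fun i => ?_
    exact isOpen_lt (by fun_prop) continuous_const
  have hDa : a ∈ D := fun i => by simp [hr]
  set s : D → HomeoPlus := fun y =>
    ⟨(mob A)⁻¹ * pushH hr (y := y.1) (fun i => (y.2 i).le) * mob A,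
      HomeoPlus.mul_mem (HomeoPlus.mul_mem (HomeoPlus.inv_mem (mob_mem A)) (pushH_mem hr _))
        (mob_mem A)⟩ with hs
  have hs_apply : ∀ (y : D) (z : Sph), (s y).1 z = A⁻¹ • Push a r (A • z, y.1) :=
    fun y z => rfl
  have hs_cont : Continuous s := by
    rw [toC_inducing.continuous_iff]
    apply ContinuousMap.continuous_of_continuous_uncurry
    have h1 : Continuous fun p : D × Sph => (A • p.2, p.1.1) :=
      ((continuous_smul_const A).comp continuous_snd).prodMk
        (continuous_subtype_val.comp continuous_fst)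
    have h2 : Continuous fun p : D × Sph => Push a r (A • p.2, p.1.1) := (Push_cont a hr).comp h1
    have h3 : Continuous fun p : D × Sph => A⁻¹ • Push a r (A • p.2, p.1.1) :=
      (continuous_smul_const A⁻¹).comp h2
    exact h3
  have hs_a : s ⟨a, hDa⟩ = 1 := by
    apply Subtype.ext
    ext z
    rw [hs_apply]
    simp only
    rw [Push_base, inv_smul_smul]
    rfl
  have h1 : s ⁻¹' U ∈ 𝓝 (⟨a, hDa⟩ : D) := hs_cont.continuousAt.preimage_mem_nhds
    (by rw [hs_a]; exact hU)
  have h2 : Subtype.val '' (s ⁻¹' U) ∈ 𝓝 a := hDo.isOpenEmbedding_subtypeVal.image_mem_nhds.2 h1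
  -- the open map to configurations
  have hj : IsOpenMap (Pi.map (fun _ : Idx => fun z : ℂ => (mob A)⁻¹ (z : OnePoint ℂ))) := by
    have h3 : IsOpenMap fun z : ℂ => (mob A)⁻¹ (z : OnePoint ℂ) :=
      ((mob A)⁻¹).isOpenMap.comp OnePoint.isOpenMap_coe
    exact IsOpenMap.piMap (fun _ => h3) (by simp [Filter.cofinite_eq_bot])
  have h4 := hj.image_mem_nhds h2
  have h5 : Pi.map (fun _ : Idx => fun z : ℂ => (mob A)⁻¹ (z : OnePoint ℂ)) a = x := by
    funext i
    show A⁻¹ • ((a i : ℂ) : OnePoint ℂ) = x i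
    rw [← ha, inv_smul_smul]
  rw [h5] at h4
  refine mem_of_superset h4 ?_
  rintro _ ⟨_, ⟨y, hy, rfl⟩, rfl⟩
  refine ⟨s y, hy, fun i => ?_⟩
  rw [hs_apply, ha, Push_at hr hsep]
  rfl

/-- configurations form a connected set -/
theorem conf_preconnected : IsPreconnected Conf := by
  refine isPreconnected_of_forall_pair fun x hx y hy => ?_
  -- homogeneous coordinates
  set u : Idx → Vec := fun i => sec (x i) with hu
  set v : Idx → Vec := fun i => sec (y i) with hv
  have hu' : Function.Injective fun i => hp (u i) := by simp only [hu, hp_sec]; exact hx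
  have hv' : Function.Injective fun i => hp (v i) := by simp only [hv, hp_sec]; exact hy
  set L : Idx → ℂ → ℂ × ℂ := fun i t =>
    ((u i).1.1 + t * ((v i).1.1 - (u i).1.1), (u i).1.2 + t * ((v i).1.2 - (u i).1.2)) with hL
  set Q : Idx → Idx → Polynomial ℂ := fun i j =>
    (Polynomial.C (u i).1.1 + Polynomial.X * Polynomial.C ((v i).1.1 - (u i).1.1)) *
    (Polynomial.C (u j).1.2 + Polynomial.X * Polynomial.C ((v j).1.2 - (u j).1.2)) -
    (Polynomial.C (u i).1.2 + Polynomial.X * Polynomial.C ((v i).1.2 - (u i).1.2)) *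
    (Polynomial.C (u j).1.1 + Polynomial.X * Polynomial.C ((v j).1.1 - (u j).1.1)) with hQ
  have hQe : ∀ i j t, (Q i j).eval t = br (L i t) (L j t) := by
    intro i j t
    simp [hQ, hL, br]
  set P : Polynomial ℂ := ∏ p ∈ (Finset.univ : Finset (Idx × Idx)).filter (fun p => p.1 ≠ p.2),
    Q p.1 p.2 with hP
  have hPe : ∀ t, P.eval t ≠ 0 ↔ ∀ i j, i ≠ j → br (L i t) (L j t) ≠ 0 := by
    intro t
    rw [hP, Polynomial.eval_prod, Finset.prod_ne_zero_iff]
    constructor
    · intro h i j hij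
      rw [← hQe]
      exact h (i, j) (by simp [hij])
    · intro h p hp
      rw [hQe]
      exact h _ _ (by simpa using hp)
  have hL0 : ∀ i, L i 0 = (u i).1 := fun i => by simp [hL]
  have hL1 : ∀ i, L i 1 = (v i).1 := fun i => by simp [hL]
  obtain ⟨γ, hγ, g0, g1, hne⟩ := exists_path P
    ((hPe 0).2 fun i j hij => by rw [hL0, hL0]; exact br_ne hu' hij)
    ((hPe 1).2 fun i j hij => by rw [hL1, hL1]; exact br_ne hv' hij)
  have hbr : ∀ t i j, i ≠ j → br (L i (γ t)) (L j (γ t)) ≠ 0 := fun t => (hPe (γ t)).1 (hne t)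
  have hLne : ∀ t i, L i (γ t) ≠ 0 := by
    intro t i h0
    obtain ⟨j, hj⟩ : ∃ j : Idx, j ≠ i := by
      rcases i with i | i
      · exact ⟨Sum.inr 0, by simp⟩
      · exact ⟨Sum.inl 0, by simp⟩
    apply hbr t i j hj.symm
    rw [h0]; simp [br]
  set c : I → Idx → Sph := fun t i => hp ⟨L i (γ t), hLne t i⟩ with hc
  have hcc : Continuous c := by
    rw [continuous_pi_iff]
    intro i
    have h1 : Continuous fun t => L i (γ t) := by
      simp only [hL]; fun_prop
    have h2 : Continuous fun t => (⟨L i (γ t), hLne t i⟩ : Vec) := continuous_induced_rng.2 h1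
    exact hp_cont.comp h2
  refine ⟨Set.range c, ?_, ⟨0, ?_⟩, ⟨1, ?_⟩, isPreconnected_range hcc⟩
  · rintro _ ⟨t, rfl⟩ i j hij
    by_contra hne'
    exact hbr t i j hne' ((hp_eq_iff _ _).1 hij)
  · funext i
    have : (⟨L i (γ 0), hLne 0 i⟩ : Vec) = u i := Subtype.ext (by simp only; rw [g0, hL0])
    simp only [hc]
    rw [this, hu]
    exact hp_sec _
  · funext i
    have : (⟨L i (γ 1), hLne 1 i⟩ : Vec) = v i := Subtype.ext (by simp only; rw [g1, hL1])
    simp only [hc]
    rw [this, hv]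
    exact hp_sec _

/-- the base configuration `0, 1, 2, 3; 4, 5` -/
def base : Idx → Sph :=
  Sum.elim (fun i => (((i : ℕ) : ℂ) : OnePoint ℂ)) (fun j => (((4 + (j : ℕ) : ℕ) : ℂ) : OnePoint ℂ))

theorem base_inl (i : Fin 4) : base (Sum.inl i) = (((i : ℕ) : ℂ) : OnePoint ℂ) := rfl
theorem base_inr (i : Fin 2) : base (Sum.inr i) = (((4 + (i : ℕ) : ℕ) : ℂ) : OnePoint ℂ) := rfl

theorem base_mem : base ∈ Conf := by
  rintro (i | i) (j | j) h
  · rw [base_inl, base_inl, OnePoint.coe_eq_coe, Nat.cast_inj] at h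
    rw [Fin.ext h]
  · rw [base_inl, base_inr, OnePoint.coe_eq_coe, Nat.cast_inj] at h
    omega
  · rw [base_inl, base_inr, OnePoint.coe_eq_coe, Nat.cast_inj] at h
    omega
  · rw [base_inr, base_inr, OnePoint.coe_eq_coe, Nat.cast_inj] at h
    congr 1
    exact Fin.ext (by omega)

theorem range_base : Set.range base = Pts := by
  ext z
  constructor
  · rintro ⟨i | i, rfl⟩
    · exact ⟨⟨i, by omega⟩, rfl⟩
    · exact ⟨⟨4 + i, by omega⟩, rfl⟩
  · rintro ⟨k, rfl⟩
    rcases lt_or_ge (k : ℕ) 4 with h | h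
    · exact ⟨Sum.inl ⟨k, h⟩, rfl⟩
    · refine ⟨Sum.inr ⟨k - 4, by omega⟩, ?_⟩
      rw [base_inr]
      simp only
      rw [Nat.add_sub_cancel' h]

theorem map_conf (h : Sph ≃ₜ Sph) {x : Idx → Sph} (hx : x ∈ Conf) : (fun i => h (x i)) ∈ Conf :=
  h.injective.comp hx

/-- evaluation at the base configuration -/
noncomputable def ev (h : HomeoPlus) : Conf := ⟨fun i => h.1 (base i), map_conf h.1 base_mem⟩

theorem ev_cont : Continuous ev := by
  refine continuous_induced_rng.2 ?_
  rw [continuous_pi_iff]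
  intro i
  have h1 : Continuous fun f : C(Sph, Sph) => f (base i) := continuous_eval_const _
  exact h1.comp toC_inducing.continuous

theorem mul_right_cont (h : HomeoPlus) : Continuous fun k : HomeoPlus => k * h := by
  rw [toC_inducing.continuous_iff]
  have h1 : Continuous fun f : C(Sph, Sph) => f.comp (toC h) := ContinuousMap.continuous_precomp _
  exact h1.comp toC_inducing.continuous

theorem ev_open : IsOpenMap ev := by
  rw [isOpenMap_iff_nhds_le]
  intro h
  rw [le_map_iff]
  intro U hU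
  have h1 : (fun k : HomeoPlus => k * h) ⁻¹' U ∈ 𝓝 (1 : HomeoPlus) :=
    (mul_right_cont h).continuousAt.preimage_mem_nhds (by rw [one_mul]; exact hU)
  have h2 := micro (ev h).2 h1
  rw [nhds_subtype_eq_comap]
  refine ⟨_, h2, ?_⟩
  rintro y ⟨k, hk, hy⟩
  exact ⟨k * h, hk, Subtype.ext (funext fun i => (hy i).symm)⟩

theorem ev_surj : Function.Surjective ev := by
  have hpc : PreconnectedSpace Conf := isPreconnected_iff_preconnectedSpace.1 conf_preconnected
  have h1 : IsOpen (Set.range ev) := ev_open.isOpen_range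
  have h2 : IsClosed (Set.range ev) := by
    rw [← isOpen_compl_iff, isOpen_iff_mem_nhds]
    intro x hx
    have h3 := micro x.2 (univ_mem : (Set.univ : Set HomeoPlus) ∈ 𝓝 1)
    rw [nhds_subtype_eq_comap]
    refine ⟨_, h3, ?_⟩
    rintro y ⟨k, -, hy⟩ ⟨h, hh⟩
    apply hx
    refine ⟨k⁻¹ * h, Subtype.ext (funext fun i => ?_)⟩
    have h4 : h.1 (base i) = k.1 (x.1 i) := by
      have := congrFun (congrArg Subtype.val hh) i
      rw [← hy]; exact this
    show k.1.symm (h.1 (base i)) = x.1 i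
    rw [h4, Homeomorph.symm_apply_apply]
  have h3 := IsClopen.eq_univ ⟨h2, h1⟩ ⟨ev 1, ⟨1, rfl⟩⟩
  rwa [Set.range_eq_univ] at h3

theorem ev_quotient : IsOpenQuotientMap ev := ⟨ev_surj, ev_cont, ev_open⟩

end Pool.Agent.TH546.M2
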